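import Pool.Agent.Lib.MP_65f012_coD.Defs

/-!
# The base system: ten points, labels in a group of order `32`, `310` flags

The flag `f : Fin 310` has at the position `0` the point `f / 31` and the label number `f % 31 + 1`. The
rotation `R` of the flags gives the points and labels at the positions `1` and `2`.
-/

set_option autoImplicit false
set_option maxRecDepth 100000

namespace Pool.Agent.Lib.MP_65f012_coD

open MP_65f012_coM

namespace Base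

/-- the element of `F4` with a number -/
def f4 (n : ℕ) : F4 :=
  if n = 0 then F4.O else if n = 1 then F4.I else if n = 2 then F4.W else F4.Z

/-- the number of an element -/
def g4 : F4 → ℕ
  | F4.O => 0
  | F4.I => 1
  | F4.W => 2
  | F4.Z => 3

/-- the element of `P × F4` with a number -/
def vec (n : ℕ) : P × F4 :=
  ((if n % 2 = 1 then 1 else 0, if n / 2 % 2 = 1 then 1 else 0, if n / 4 % 2 = 1 then 1 else 0),
    f4 (n / 8))

/-- the number of an element -/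
def num (x : P × F4) : ℕ := x.1.1.val + 2 * x.1.2.1.val + 4 * x.1.2.2.val + 8 * g4 x.2

/-- the rotation -/
def TR : List ℕ :=
  [0, 2, 57, 11, 36, 59, 13, 78, 110, 131, 280, 186, 242, 251, 164, 72, 133, 229, 184, 115, 294,
   194, 250, 87, 254, 193, 125, 174, 97, 296, 239, 31, 33, 88, 42, 67, 90, 44, 109, 141, 7, 156,
   217, 273, 282, 195, 103, 9, 260, 215, 146, 170, 225, 281, 118, 285, 224, 1, 205, 128, 172, 270,
   62, 64, 119, 73, 98, 121, 75, 140, 17, 38, 187, 248, 304, 158, 226, 134, 40, 291, 246, 22, 201,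
   256, 157, 149, 161, 255, 32, 236, 4, 203, 301, 93, 95, 150, 104, 129, 152, 106, 16, 48, 69,
   218, 279, 180, 189, 257, 10, 71, 167, 277, 53, 232, 287, 188, 25, 192, 286, 63, 267, 35, 234,
   177, 124, 126, 26, 135, 5, 28, 137, 47, 79, 100, 249, 155, 211, 220, 288, 41, 102, 198, 308,
   84, 263, 163, 219, 56, 223, 162, 94, 298, 66, 265, 208, 127, 139, 143, 68, 289, 122, 214, 85,
   266, 292, 231, 92, 8, 45, 283, 202, 20, 253, 52, 182, 238, 181, 197, 178, 111, 185, 268, 27,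
   55, 241, 105, 3, 15, 19, 99, 165, 153, 245, 116, 297, 168, 262, 123, 39, 76, 159, 233, 51, 284,
   83, 213, 269, 212, 228, 209, 142, 216, 299, 58, 86, 272, 136, 34, 46, 50, 130, 196, 29, 276,
   147, 173, 199, 293, 154, 70, 107, 190, 264, 82, 160, 114, 244, 300, 243, 259, 240, 18, 247,
   175, 89, 117, 303, 12, 65, 77, 81, 6, 227, 60, 307, 23, 204, 230, 169, 30, 101, 138, 221, 295,
   113, 191, 145, 275, 176, 274, 290, 271, 49, 278, 206, 120, 148, 179, 43, 96, 108, 112, 37, 258,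
   91, 183, 54, 235, 261, 200, 61, 132, 14, 252, 171, 144, 222, 21, 306, 207, 305, 166, 302, 80,
   309, 237, 151, 24, 210, 74]

/-- the signs -/
def TE : List ℕ :=
  [0, 0, 0, 0, 0, 0, 1, 0, 0, 0, 0, 0, 0, 0, 0, 0, 0, 0, 0, 0, 0, 0, 0, 0, 0, 0, 0, 0, 0, 0, 0, 0,
   0, 0, 0, 0, 0, 1, 0, 0, 0, 0, 0, 0, 0, 0, 0, 0, 0, 0, 0, 0, 0, 0, 0, 0, 0, 0, 0, 0, 0, 0, 0, 0,
   0, 1, 0, 0, 0, 0, 0, 0, 0, 0, 0, 0, 0, 0, 0, 0, 0, 0, 0, 0, 0, 0, 0, 0, 0, 0, 0, 0, 0, 0, 0, 0,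
   1, 0, 0, 0, 0, 0, 0, 0, 1, 0, 0, 0, 0, 0, 0, 0, 0, 0, 1, 0, 0, 0, 0, 0, 0, 0, 0, 0, 0, 0, 0, 0,
   0, 0, 1, 0, 0, 0, 1, 0, 0, 0, 0, 0, 0, 0, 0, 0, 1, 0, 0, 0, 0, 0, 0, 0, 0, 0, 0, 0, 0, 0, 0, 0,
   0, 0, 0, 0, 0, 0, 0, 0, 0, 0, 0, 0, 0, 0, 0, 0, 1, 0, 0, 0, 0, 0, 0, 0, 0, 0, 0, 0, 0, 0, 0, 0,
   1, 0, 0, 0, 0, 0, 0, 0, 0, 0, 0, 1, 0, 0, 0, 1, 1, 0, 0, 0, 1, 0, 0, 0, 0, 0, 0, 0, 1, 0, 1, 0,
   0, 0, 0, 1, 1, 0, 0, 0, 1, 0, 0, 1, 0, 1, 0, 1, 0, 0, 1, 0, 0, 1, 0, 1, 1, 1, 0, 1, 0, 0, 0, 0,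
   0, 0, 1, 1, 0, 0, 0, 1, 1, 0, 0, 1, 1, 0, 1, 0, 0, 0, 0, 1, 0, 0, 0, 0, 0, 0, 1, 1, 1, 0, 0, 0,
   0, 0, 1, 0, 0, 1, 0, 0, 1, 0, 0, 0, 0, 0, 0, 0, 1, 1, 0, 0, 0, 1]

/-- labels (minus one) of the flags with given points at the positions `0` and `1` -/
def TQ : List ℕ :=
  [0, 1, 3, 6, 2, 4, 5, 0, 7, 15, 23, 0, 8, 19, 28, 0, 9, 16, 26, 0, 14, 18, 27, 0, 11, 21, 25, 0,
   12, 17, 30, 0, 13, 22, 24, 0, 10, 20, 29, 0, 9, 16, 26, 0, 0, 1, 3, 6, 2, 4, 5, 0, 7, 15, 23,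
   0, 8, 19, 28, 0, 10, 20, 29, 0, 14, 18, 27, 0, 11, 21, 25, 0, 12, 17, 30, 0, 13, 22, 24, 0, 8,
   19, 28, 0, 9, 16, 26, 0, 0, 1, 3, 6, 2, 4, 5, 0, 7, 15, 23, 0, 13, 22, 24, 0, 10, 20, 29, 0,
   14, 18, 27, 0, 11, 21, 25, 0, 12, 17, 30, 0, 7, 15, 23, 0, 8, 19, 28, 0, 9, 16, 26, 0, 0, 1, 3,
   6, 2, 4, 5, 0, 12, 17, 30, 0, 13, 22, 24, 0, 10, 20, 29, 0, 14, 18, 27, 0, 11, 21, 25, 0, 2, 4,
   5, 0, 7, 15, 23, 0, 8, 19, 28, 0, 9, 16, 26, 0, 0, 1, 3, 6, 11, 21, 25, 0, 12, 17, 30, 0, 13,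
   22, 24, 0, 10, 20, 29, 0, 14, 18, 27, 0, 12, 16, 27, 0, 13, 18, 28, 0, 3, 7, 11, 0, 5, 24, 30,
   0, 0, 1, 2, 0, 19, 21, 23, 25, 6, 15, 22, 0, 10, 20, 29, 0, 8, 17, 26, 0, 4, 9, 14, 0, 0, 1, 2,
   0, 12, 16, 27, 0, 13, 18, 28, 0, 3, 7, 11, 0, 5, 24, 30, 0, 4, 9, 14, 0, 19, 21, 23, 25, 6, 15,
   22, 0, 10, 20, 29, 0, 8, 17, 26, 0, 5, 24, 30, 0, 0, 1, 2, 0, 12, 16, 27, 0, 13, 18, 28, 0, 3,
   7, 11, 0, 8, 17, 26, 0, 4, 9, 14, 0, 19, 21, 23, 25, 6, 15, 22, 0, 10, 20, 29, 0, 3, 7, 11, 0,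
   5, 24, 30, 0, 0, 1, 2, 0, 12, 16, 27, 0, 13, 18, 28, 0, 10, 20, 29, 0, 8, 17, 26, 0, 4, 9, 14,
   0, 19, 21, 23, 25, 6, 15, 22, 0, 13, 18, 28, 0, 3, 7, 11, 0, 5, 24, 30, 0, 0, 1, 2, 0, 12, 16,
   27, 0, 6, 15, 22, 0, 10, 20, 29, 0, 8, 17, 26, 0, 4, 9, 14, 0, 19, 21, 23, 25]

/-- rotation -/
def R (f : Fin 310) : Fin 310 := Fin.ofNat 310 (TR.getD f 0)

/-- point at the position `0` -/
def p0 (f : Fin 310) : Fin 10 := Fin.ofNat 10 ((f : ℕ) / 31)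

/-- label at the position `0` -/
def a0 (f : Fin 310) : P × F4 := vec ((f : ℕ) % 31 + 1)

/-- sign -/
def e0 (f : Fin 310) : ZMod 2 := if TE.getD f 0 = 1 then 1 else 0

/-- the flags with given points at the positions `0` and `1` -/
def q (i j : Fin 10) (m : Fin 4) : Fin 310 :=
  Fin.ofNat 310 (31 * i + TQ.getD (40 * i + 4 * j + m) 0)

theorem R3 (f : Fin 310) : R (R (R f)) = f := by
  revert f
  decide +kernel

theorem R_inj {f g : Fin 310} (h : R f = R g) : f = g := by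
  rw [← R3 f, h, R3]

theorem a0_num (f : Fin 310) : 31 * (p0 f : ℕ) + (num (a0 f) - 1) = f := by
  revert f
  decide +kernel

theorem a0_ne (f : Fin 310) : a0 f ≠ 0 := by
  revert f
  decide +kernel

theorem inj0 (f g : Fin 310) (h1 : p0 f = p0 g) (h2 : a0 f = a0 g) : f = g := by
  refine Fin.ext ?_
  rw [← a0_num f, h1, h2, a0_num]

theorem e_rot (f : Fin 310) : e0 f + e0 (R f) + e0 (R (R f)) = 0 := by
  revert f
  decide +kernel

theorem q1 (i j : Fin 10) (m : Fin 4) (h : i = j ∨ m ≠ 3) : p0 (q i j m) = i ∧ p0 (R (q i j m)) = j := by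
  revert i j m
  decide +kernel

theorem q2 (f : Fin 310) : ∃ m, (p0 f = p0 (R f) ∨ m ≠ 3) ∧ q (p0 f) (p0 (R f)) m = f := by
  revert f
  decide +kernel

theorem q3 (i j : Fin 10) (m m' : Fin 4) (h : i = j ∨ (m ≠ 3 ∧ m' ≠ 3)) (e : q i j m = q i j m') :
    m = m' := by
  revert i j m m'
  decide +kernel

theorem q4 (i j : Fin 10) (h : i ≠ j) :
    a0 (q i j 0) + a0 (q i j 1) + a0 (q i j 2) = 0 ∧
      a0 (R (q i j 0)) + a0 (R (q i j 1)) + a0 (R (q i j 2)) = 0 ∧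
      e0 (q i j 0) + e0 (q i j 1) + e0 (q i j 2) = 0 := by
  revert i j
  decide +kernel

theorem q5 (i : Fin 10) :
    a0 (q i i 0) + a0 (q i i 1) + a0 (q i i 2) + a0 (q i i 3) = 0 ∧
      a0 (R (q i i 0)) + a0 (R (q i i 1)) + a0 (R (q i i 2)) + a0 (R (q i i 3)) = 0 ∧
      e0 (q i i 0) + e0 (q i i 1) + e0 (q i i 2) + e0 (q i i 3) = 1 := by
  revert i
  decide +kernel

/-- powers of the rotation -/
def Rp (s : Fin 3) (f : Fin 310) : Fin 310 :=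
  if s = 0 then f else if s = 1 then R f else R (R f)

/-- points -/
def p (s : Fin 3) (f : Fin 310) : Fin 10 := p0 (Rp s f)

/-- labels -/
def a (s : Fin 3) (f : Fin 310) : P × F4 := a0 (Rp s f)

/-- signs -/
def h (s : Fin 3) (f : Fin 310) : ZMod 2 :=
  if s = 0 then 0 else if s = 1 then e0 f else e0 (R (R f))

theorem Rp_inj (s : Fin 3) {f g : Fin 310} (e : Rp s f = Rp s g) : f = g := by
  unfold Rp at e
  split_ifs at e
  · exact e
  · exact R_inj e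
  · exact R_inj (R_inj e)

/-- a position: `t` follows `s` -/
def fol (s t : Fin 3) : Prop := (s = 0 ∧ t = 1) ∨ (s = 1 ∧ t = 2) ∨ (s = 2 ∧ t = 0)

theorem fol_cases (s t : Fin 3) (e : s ≠ t) : fol s t ∨ fol t s := by
  unfold fol
  revert s t
  decide

/-- the flag whose rotation by the position `s` is `f` -/
def B (s : Fin 3) (f : Fin 310) : Fin 310 :=
  if s = 0 then f else if s = 1 then R (R f) else R f

theorem Rp_B (s : Fin 3) (f : Fin 310) : Rp s (B s f) = f := by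
  unfold Rp B
  split_ifs
  · rfl
  · exact R3 f
  · exact R3 f

theorem B_Rp (s : Fin 3) (f : Fin 310) : B s (Rp s f) = f := Rp_inj s (Rp_B s _)

theorem Rp_fol {s t : Fin 3} (e : fol s t) (f : Fin 310) : Rp t f = R (Rp s f) := by
  rcases e with ⟨rfl, rfl⟩ | ⟨rfl, rfl⟩ | ⟨rfl, rfl⟩
  · rfl
  · rfl
  · exact (R3 f).symm

theorem z4 (x y z : ZMod 2) (e : x + y + z = 0) : y + z = x := by
  revert x y z
  decide

theorem h_fol {s t : Fin 3} (e : fol s t) (f : Fin 310) : h s f + h t f = e0 (Rp s f) := by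
  have h1 := e_rot f
  rcases e with ⟨rfl, rfl⟩ | ⟨rfl, rfl⟩ | ⟨rfl, rfl⟩
  · show 0 + e0 f = e0 f
    rw [zero_add]
  · show e0 f + e0 (R (R f)) = e0 (R f)
    refine z4 _ _ _ ?_
    rw [← h1]
    ring
  · show e0 (R (R f)) + 0 = e0 (R (R f))
    rw [add_zero]

/-- the flags of two points, in the order of two following positions -/
theorem off1 {s t : Fin 3} (e : fol s t) (i j : Fin 10) (hij : i ≠ j) : ∃ g : Fin 3 → Fin 310,
    Function.Injective g ∧ (∀ f, (p s f = i ∧ p t f = j) ↔ ∃ m, g m = f) ∧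
    ∑ m, a s (g m) = 0 ∧ ∑ m, a t (g m) = 0 ∧ ∑ m, (h s (g m) + h t (g m)) = 0 := by
  refine ⟨fun m => B s (q i j m.castSucc), ?_, ?_, ?_, ?_, ?_⟩
  · intro m m' e1
    have e2 : q i j m.castSucc = q i j m'.castSucc := by
      rw [← Rp_B s (q i j m.castSucc), ← Rp_B s (q i j m'.castSucc)]
      exact congrArg (Rp s) e1
    have e3 := q3 i j _ _ (Or.inr ⟨(Fin.castSucc_lt_last m).ne, (Fin.castSucc_lt_last m').ne⟩) e2
    exact Fin.castSucc_injective _ e3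
  · intro f
    constructor
    · rintro ⟨h1, h2⟩
      obtain ⟨m, hm, e1⟩ := q2 (Rp s f)
      have h3 : p0 (R (Rp s f)) = j := by
        rw [← Rp_fol e]
        exact h2
      have h4 : p0 (Rp s f) = i := h1
      rw [h3, h4] at e1 hm
      have hm' : m ≠ 3 := hm.resolve_left hij
      obtain ⟨m', rfl⟩ := Fin.exists_castSucc_eq.2 hm'
      refine ⟨m', ?_⟩
      show B s (q i j m'.castSucc) = f
      rw [e1, B_Rp]
    · rintro ⟨m, rfl⟩
      have h1 := q1 i j m.castSucc (Or.inr (Fin.castSucc_lt_last m).ne)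
      constructor
      · show p0 (Rp s _) = i
        rw [Rp_B]
        exact h1.1
      · show p0 (Rp t _) = j
        rw [Rp_fol e, Rp_B]
        exact h1.2
  · rw [Fin.sum_univ_three]
    show a0 (Rp s _) + a0 (Rp s _) + a0 (Rp s _) = 0
    rw [Rp_B, Rp_B, Rp_B]
    exact (q4 i j hij).1
  · rw [Fin.sum_univ_three]
    show a0 (Rp t _) + a0 (Rp t _) + a0 (Rp t _) = 0
    rw [Rp_fol e, Rp_fol e, Rp_fol e, Rp_B, Rp_B, Rp_B]
    exact (q4 i j hij).2.1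
  · rw [Fin.sum_univ_three, h_fol e, h_fol e, h_fol e, Rp_B, Rp_B, Rp_B]
    exact (q4 i j hij).2.2

theorem diag1 {s t : Fin 3} (e : fol s t) (i : Fin 10) : ∃ g : Fin 4 → Fin 310,
    Function.Injective g ∧ (∀ f, (p s f = i ∧ p t f = i) ↔ ∃ m, g m = f) ∧
    ∑ m, a s (g m) = 0 ∧ ∑ m, a t (g m) = 0 ∧ ∑ m, (h s (g m) + h t (g m)) = 1 := by
  refine ⟨fun m => B s (q i i m), ?_, ?_, ?_, ?_, ?_⟩
  · intro m m' e1
    have e2 : q i i m = q i i m' := by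
      rw [← Rp_B s (q i i m), ← Rp_B s (q i i m')]
      exact congrArg (Rp s) e1
    exact q3 i i _ _ (Or.inl rfl) e2
  · intro f
    constructor
    · rintro ⟨h1, h2⟩
      obtain ⟨m, -, e1⟩ := q2 (Rp s f)
      have h3 : p0 (R (Rp s f)) = i := by
        rw [← Rp_fol e]
        exact h2
      have h4 : p0 (Rp s f) = i := h1
      rw [h3, h4] at e1
      refine ⟨m, ?_⟩
      show B s (q i i m) = f
      rw [e1, B_Rp]
    · rintro ⟨m, rfl⟩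
      have h1 := q1 i i m (Or.inl rfl)
      constructor
      · show p0 (Rp s _) = i
        rw [Rp_B]
        exact h1.1
      · show p0 (Rp t _) = i
        rw [Rp_fol e, Rp_B]
        exact h1.2
  · rw [Fin.sum_univ_four]
    show a0 (Rp s _) + a0 (Rp s _) + a0 (Rp s _) + a0 (Rp s _) = 0
    rw [Rp_B, Rp_B, Rp_B, Rp_B]
    exact (q5 i).1
  · rw [Fin.sum_univ_four]
    show a0 (Rp t _) + a0 (Rp t _) + a0 (Rp t _) + a0 (Rp t _) = 0
    rw [Rp_fol e, Rp_fol e, Rp_fol e, Rp_fol e, Rp_B, Rp_B, Rp_B, Rp_B]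
    exact (q5 i).2.1
  · rw [Fin.sum_univ_four, h_fol e, h_fol e, h_fol e, h_fol e, Rp_B, Rp_B, Rp_B, Rp_B]
    exact (q5 i).2.2

end Base

/-- the base system -/
def base : Sys 3 (Fin 310) (Fin 10) (P × F4) where
  p := Base.p
  a := Base.a
  h := Base.h
  ne0 s f := Base.a0_ne _
  inj s f g h1 h2 := Base.Rp_inj s (Base.inj0 _ _ h1 h2)
  off s t i j hst hij := by
    rcases Base.fol_cases s t hst with e | e
    · obtain ⟨g, h1, h2, h3, -, h5⟩ := Base.off1 e i j hij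
      exact ⟨g, h1, h2, h3, h5⟩
    · obtain ⟨g, h1, h2, -, h4, h5⟩ := Base.off1 e j i hij.symm
      refine ⟨g, h1, fun f => and_comm.trans (h2 f), h4, ?_⟩
      rw [← h5]
      exact Finset.sum_congr rfl fun m _ => add_comm _ _
  diag s t i hst := by
    rcases Base.fol_cases s t hst with e | e
    · obtain ⟨g, h1, h2, h3, -, h5⟩ := Base.diag1 e i
      exact ⟨g, h1, h2, h3, h5⟩
    · obtain ⟨g, h1, h2, -, h4, h5⟩ := Base.diag1 e i
      refine ⟨g, h1, fun f => and_comm.trans (h2 f), h4, ?_⟩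
      rw [← h5]
      exact Finset.sum_congr rfl fun m _ => add_comm _ _

end Pool.Agent.Lib.MP_65f012_coD
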