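import Pool.Agent.Lib.MP_65f012_coM.F4

/-!
# Systems of flags with labels and signs, local blocks, geometries

`Sys μ F Ω V`: a set `F` of flags; for every position `s : Fin μ` a flag `f` has a point `p s f`, a label
`a s f` (a nonzero element of `V`) and a sign `h s f`.
-/

set_option autoImplicit false

namespace Pool.Agent.Lib.MP_65f012_coD

open MP_65f012_coM (F4)

/-- the elementary abelian group of order eight -/
abbrev P : Type := ZMod 2 × ZMod 2 × ZMod 2

/-- systems of flags -/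
structure Sys (μ : ℕ) (F Ω V : Type) [AddCommGroup V] where
  /-- points -/
  p : Fin μ → F → Ω
  /-- labels -/
  a : Fin μ → F → V
  /-- signs -/
  h : Fin μ → F → ZMod 2
  ne0 : ∀ s f, a s f ≠ 0
  inj : ∀ s f g, p s f = p s g → a s f = a s g → f = g
  off : ∀ s t i j, s ≠ t → i ≠ j → ∃ g : Fin 3 → F, Function.Injective g ∧
    (∀ f, (p s f = i ∧ p t f = j) ↔ ∃ m, g m = f) ∧
    ∑ m, a s (g m) = 0 ∧ ∑ m, (h s (g m) + h t (g m)) = 0
  diag : ∀ s t i, s ≠ t → ∃ g : Fin 4 → F, Function.Injective g ∧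
    (∀ f, (p s f = i ∧ p t f = i) ↔ ∃ m, g m = f) ∧
    ∑ m, a s (g m) = 0 ∧ ∑ m, (h s (g m) + h t (g m)) = 1

/-- local blocks with group `U` of affine points and set `H` of holes, `R` the set of rows -/
structure Loc (μ : ℕ) (R U H : Type) [AddCommGroup U] where
  /-- the hole of a position of a row, `none` if the point is affine -/
  k : Fin μ → R → Option H
  /-- the affine point (if there is no hole) -/
  b : Fin μ → R → U
  /-- label, first part -/
  α : Fin μ → R → U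
  /-- label, second part -/
  β : Fin μ → R → F4
  /-- sign of the translate of a row -/
  σ : Fin μ → R → U → ZMod 2
  /-- multiplication at a hole -/
  Θ : H → F4 → U → U
  one : ∀ s t r, s ≠ t → k s r ≠ none → k t r = none
  inj : ∀ s r r', k s r = none → k s r' = none → α s r = α s r' → β s r = β s r' → r = r'
  injH : ∀ s r r', k s r ≠ none → k s r = k s r' → β s r = β s r' → r = r'
  hβ : ∀ s r, k s r ≠ none → β s r ≠ 0
  aff : ∀ s t d, s ≠ t → d ≠ 0 → ∃ g : Fin 3 → R, Function.Injective g ∧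
    (∀ r, (k s r = none ∧ k t r = none ∧ b t r = b s r + d) ↔ ∃ m, g m = r) ∧
    ∑ m, α s (g m) = 0 ∧ ∑ m, β s (g m) = 0 ∧
    ∀ x, ∑ m, (σ s (g m) (x - b s (g m)) + σ t (g m) (x - b s (g m))) = 0
  hole : ∀ s t η, s ≠ t → ∃ g : Fin 3 → R, Function.Injective g ∧
    (∀ r, (k s r = none ∧ k t r = some η) ↔ ∃ m, g m = r) ∧
    ∑ m, α s (g m) = 0 ∧ ∑ m, β s (g m) = 0 ∧
    ∑ m, (α t (g m) - Θ η (β t (g m)) (b s (g m))) = 0 ∧ ∑ m, β t (g m) = 0 ∧
    ∀ x, ∑ m, (σ s (g m) (x - b s (g m)) + σ t (g m) (x - b s (g m))) = 0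

/-- the special block -/
structure LocS (μ : ℕ) (R U H : Type) [AddCommGroup U] extends Loc μ R U H where
  ne0 : ∀ s r, k s r = none → α s r = 0 → β s r ≠ 0
  diag : ∀ s t, s ≠ t → ∃ g : Fin 4 → R, Function.Injective g ∧
    (∀ r, (k s r = none ∧ k t r = none ∧ b t r = b s r) ↔ ∃ m, g m = r) ∧
    ∑ m, α s (g m) = 0 ∧ ∑ m, β s (g m) = 0 ∧
    ∀ x, ∑ m, (σ s (g m) (x - b s (g m)) + σ t (g m) (x - b s (g m))) = 1

/-- the block of a line -/
structure LocL (μ : ℕ) (R U H : Type) [AddCommGroup U] extends Loc μ R U H where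
  nα : ∀ s r, k s r = none → α s r ≠ 0
  ne : ∀ s t r, s ≠ t → k s r = none → k t r = none → b t r ≠ b s r

/-- geometry: the group `V` without `0` is the union of `P` and of lines -/
structure Geo (L V : Type) [AddCommGroup V] (Θ : Fin 2 → F4 → P → P) where
  /-- the subgroup -/
  ι : P →+ V
  /-- the lines -/
  j : L → F4 →+ V
  /-- projection -/
  π : V →+ P
  /-- multiplications -/
  G : L ⊕ Fin 2 → F4 →+ V →+ V
  ι_inj : ∀ x, ι x = 0 → x = 0
  j_inj : ∀ κ c, j κ c = 0 → c = 0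
  cover : ∀ v, v ≠ 0 → (∃ x, v = ι x) ∨ ∃ κ c, v = j κ c
  ij : ∀ κ c x, j κ c = ι x → c = 0
  jj : ∀ κ κ' c c', j κ c = j κ' c' → c ≠ 0 → κ = κ'
  π_ι : ∀ x, π (ι x) = x
  G_inj : ∀ i β v, β ≠ 0 → G i β v = 0 → v = 0
  G_line : ∀ κ β c, G (Sum.inl κ) β (j κ c) = j κ (β * c)
  G_hole : ∀ m β x, G (Sum.inr m) β (ι x) = ι (Θ m β x)

end Pool.Agent.Lib.MP_65f012_coD
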