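import Pool.Agent.Lib.MP_65f012_coD.Defs

/-!
# The block of a line: five points, sixty flags, the translations of `F4`
-/

set_option autoImplicit false
set_option maxRecDepth 100000

namespace Pool.Agent.Lib.MP_65f012_coD

open MP_65f012_coM

namespace Five

/-- the element of `F4` with a number -/
def f4 (n : ℕ) : F4 :=
  if n = 0 then F4.O else if n = 1 then F4.I else if n = 2 then F4.W else F4.Z

/-- the number of an element -/
def g4 : F4 → ℕ
  | F4.O => 0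
  | F4.I => 1
  | F4.W => 2
  | F4.Z => 3

/-- holes -/
def TK : List ℕ :=
  [0, 0, 0, 0, 0, 0, 1, 1, 1, 0, 0, 0, 0, 0, 0, 0, 0, 0, 0, 0, 0, 0, 0, 0, 1, 1, 1, 0, 0, 0, 0, 0,
   0, 0, 0, 0, 0, 0, 0, 0, 0, 0, 1, 1, 1]

/-- affine points -/
def TB : List ℕ :=
  [0, 0, 0, 0, 0, 0, 0, 0, 0, 0, 0, 0, 0, 0, 0, 1, 1, 2, 2, 3, 3, 0, 0, 0, 0, 0, 0, 1, 2, 3, 2, 3,
   3, 1, 1, 2, 1, 2, 3, 1, 2, 3, 0, 0, 0]

/-- labels, first part -/
def TA : List ℕ :=
  [2, 3, 1, 2, 3, 1, 0, 0, 0, 1, 3, 2, 1, 3, 2, 3, 2, 2, 1, 1, 3, 1, 3, 2, 1, 3, 2, 1, 3, 2, 1, 1,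
   3, 3, 2, 2, 1, 3, 2, 1, 3, 2, 0, 0, 0]

/-- labels, second part -/
def TC : List ℕ :=
  [2, 3, 3, 1, 1, 2, 1, 2, 3, 0, 0, 0, 1, 2, 3, 1, 1, 2, 2, 3, 3, 1, 2, 3, 1, 2, 3, 0, 0, 0, 3, 2,
   1, 3, 2, 1, 0, 0, 0, 1, 2, 3, 1, 2, 3]

/-- rows of a difference -/
def GA : List ℕ :=
  [0, 1, 2, 0, 1, 2, 0, 1, 2, 0, 1, 2, 0, 1, 2, 0, 1, 12, 2, 3, 13, 4, 5, 14, 0, 1, 2, 3, 4, 9, 0,
   5, 10, 1, 2, 11, 0, 1, 2, 0, 1, 12, 2, 3, 13, 4, 5, 14, 0, 1, 2, 0, 1, 2, 0, 1, 2, 0, 1, 2, 0,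
   1, 2, 2, 5, 6, 1, 4, 7, 0, 3, 8, 0, 1, 2, 3, 4, 9, 0, 5, 10, 1, 2, 11, 0, 1, 2, 2, 5, 6, 1, 4,
   7, 0, 3, 8, 0, 1, 2, 0, 1, 2, 0, 1, 2, 0, 1, 2]

/-- rows with a hole -/
def GH : List ℕ :=
  [0, 1, 2, 9, 10, 11, 12, 13, 14, 6, 7, 8, 0, 1, 2, 12, 13, 14, 6, 7, 8, 9, 10, 11, 0, 1, 2]

/-- the hole of a position -/
def k (s : Fin 3) (r : Fin 15) : Option Unit :=
  if TK.getD (15 * s + r) 0 = 1 then some () else none

/-- the affine point of a position -/
def b (s : Fin 3) (r : Fin 15) : F4 := f4 (TB.getD (15 * s + r) 0)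

/-- label, first part -/
def α (s : Fin 3) (r : Fin 15) : F4 := f4 (TA.getD (15 * s + r) 0)

/-- label, second part -/
def β (s : Fin 3) (r : Fin 15) : F4 := f4 (TC.getD (15 * s + r) 0)

/-- rows of a difference -/
def ga (s t : Fin 3) (d : F4) (m : Fin 3) : Fin 15 :=
  Fin.ofNat 15 (GA.getD (36 * s + 12 * t + 3 * g4 d + m) 0)

/-- rows with a hole -/
def gh (s t : Fin 3) (m : Fin 3) : Fin 15 := Fin.ofNat 15 (GH.getD (9 * s + 3 * t + m) 0)

theorem one (s t : Fin 3) (r : Fin 15) (h : s ≠ t) (h1 : k s r ≠ none) : k t r = none := by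
  revert s t r
  decide +kernel

theorem inj (s : Fin 3) (r r' : Fin 15) (h1 : k s r = none) (h2 : k s r' = none)
    (h3 : α s r = α s r') (h4 : β s r = β s r') : r = r' := by
  revert s r r'
  decide +kernel

theorem injH (s : Fin 3) (r r' : Fin 15) (h1 : k s r ≠ none) (h2 : k s r = k s r')
    (h4 : β s r = β s r') : r = r' := by
  revert s r r'
  decide +kernel

theorem hβ (s : Fin 3) (r : Fin 15) (h : k s r ≠ none) : β s r ≠ 0 := by
  revert s r
  decide +kernel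

theorem nα (s : Fin 3) (r : Fin 15) (h : k s r = none) : α s r ≠ 0 := by
  revert s r
  decide +kernel

theorem ne (s t : Fin 3) (r : Fin 15) (h : s ≠ t) (h1 : k s r = none) (h2 : k t r = none) :
    b t r ≠ b s r := by
  revert s t r
  decide +kernel

theorem ga1 (s t : Fin 3) (d : F4) (h : s ≠ t) (hd : d ≠ 0) (m : Fin 3) :
    k s (ga s t d m) = none ∧ k t (ga s t d m) = none ∧
      b t (ga s t d m) = b s (ga s t d m) + d := by
  revert s t d m
  decide +kernel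

theorem ga2 (s t : Fin 3) (d : F4) (h : s ≠ t) (hd : d ≠ 0) (r : Fin 15)
    (h1 : k s r = none ∧ k t r = none ∧ b t r = b s r + d) : ∃ m, ga s t d m = r := by
  revert s t d r
  decide +kernel

theorem ga3 (s t : Fin 3) (d : F4) (h : s ≠ t) (hd : d ≠ 0) (m m' : Fin 3)
    (e : ga s t d m = ga s t d m') : m = m' := by
  revert s t d m m'
  decide +kernel

theorem ga4 (s t : Fin 3) (d : F4) (h : s ≠ t) (hd : d ≠ 0) :
    α s (ga s t d 0) + α s (ga s t d 1) + α s (ga s t d 2) = 0 ∧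
      β s (ga s t d 0) + β s (ga s t d 1) + β s (ga s t d 2) = 0 := by
  revert s t d
  decide +kernel

theorem gh1 (s t : Fin 3) (h : s ≠ t) (m : Fin 3) :
    k s (gh s t m) = none ∧ k t (gh s t m) = some () := by
  revert s t m
  decide +kernel

theorem gh2 (s t : Fin 3) (h : s ≠ t) (r : Fin 15) (h1 : k s r = none ∧ k t r = some ()) :
    ∃ m, gh s t m = r := by
  revert s t r
  decide +kernel

theorem gh3 (s t : Fin 3) (h : s ≠ t) (m m' : Fin 3) (e : gh s t m = gh s t m') : m = m' := by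
  revert s t m m'
  decide +kernel

theorem gh4 (s t : Fin 3) (h : s ≠ t) :
    α s (gh s t 0) + α s (gh s t 1) + α s (gh s t 2) = 0 ∧
      β s (gh s t 0) + β s (gh s t 1) + β s (gh s t 2) = 0 ∧
      (α t (gh s t 0) - β t (gh s t 0) * b s (gh s t 0)) +
        (α t (gh s t 1) - β t (gh s t 1) * b s (gh s t 1)) +
        (α t (gh s t 2) - β t (gh s t 2) * b s (gh s t 2)) = 0 ∧
      β t (gh s t 0) + β t (gh s t 1) + β t (gh s t 2) = 0 := by
  revert s t
  decide +kernel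

end Five

/-- the block of a line -/
def five : LocL 3 (Fin 15) F4 Unit where
  k := Five.k
  b := Five.b
  α := Five.α
  β := Five.β
  σ _ _ _ := 0
  Θ _ b c := b * c
  one := Five.one
  inj := Five.inj
  injH := Five.injH
  hβ := Five.hβ
  aff s t d h hd := ⟨Five.ga s t d, fun m m' e => Five.ga3 s t d h hd m m' e,
    fun r => ⟨fun h1 => Five.ga2 s t d h hd r h1, by
      rintro ⟨m, rfl⟩
      exact Five.ga1 s t d h hd m⟩, by
      rw [Fin.sum_univ_three]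
      exact (Five.ga4 s t d h hd).1, by
      rw [Fin.sum_univ_three]
      exact (Five.ga4 s t d h hd).2, fun _ => by
      simp⟩
  hole s t η h := ⟨Five.gh s t, fun m m' e => Five.gh3 s t h m m' e,
    fun r => ⟨fun h1 => Five.gh2 s t h r h1, by
      rintro ⟨m, rfl⟩
      exact Five.gh1 s t h m⟩, by
      rw [Fin.sum_univ_three]
      exact (Five.gh4 s t h).1, by
      rw [Fin.sum_univ_three]
      exact (Five.gh4 s t h).2.1, by
      rw [Fin.sum_univ_three]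
      exact (Five.gh4 s t h).2.2.1, by
      rw [Fin.sum_univ_three]
      exact (Five.gh4 s t h).2.2.2, fun _ => by
      simp⟩
  nα := Five.nα
  ne := Five.ne

theorem five_Θ : five.Θ = fun _ b c => b * c := rfl

end Pool.Agent.Lib.MP_65f012_coD
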