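import Pool.Agent.Lib.MP_65f012_coD.Defs

/-!
# The next geometry
-/

set_option autoImplicit false
set_option linter.unusedSectionVars false

namespace Pool.Agent.Lib.MP_65f012_coD

open MP_65f012_coM (F4)

/-- a biadditive map -/
def mkBi {A B C : Type} [AddCommGroup A] [AddCommGroup B] [AddCommGroup C] (f : A → B → C)
    (h1 : ∀ a a' b, f (a + a') b = f a b + f a' b) (h2 : ∀ a b b', f a (b + b') = f a b + f a b') :
    A →+ B →+ C :=
  AddMonoidHom.mk' (fun a => AddMonoidHom.mk' (f a) (h2 a)) (by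
    intro a a'
    ext b
    exact h1 a a' b)

theorem F4_mul_ne (β c : F4) (hβ : β ≠ 0) (h : β * c = 0) : c = 0 := by
  revert β c; decide

namespace Geo

variable {L V : Type} [AddCommGroup V] {Θ : Fin 2 → F4 → P → P} (G : Geo L V Θ)

/-- the multiplication used for the new lines -/
def H : F4 →+ V →+ V := G.G (Sum.inr 0)

theorem H_inj (β : F4) (v : V) (hβ : β ≠ 0) (h : G.H β v = 0) : v = 0 := G.G_inj _ β v hβ h

theorem H_surj [Finite V] (β : F4) (hβ : β ≠ 0) (v : V) : ∃ x, G.H β x = v := by
  have h1 : Function.Injective (G.H β) := by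
    intro x y hxy
    have h2 : G.H β (x - y) = 0 := by rw [map_sub, hxy, sub_self]
    exact sub_eq_zero.1 (G.H_inj β _ hβ h2)
  exact Finite.injective_iff_surjective.1 h1 v

/-- multiplication, componentwise -/
def lift (g : F4 →+ V →+ V) : F4 →+ (V × F4) →+ (V × F4) :=
  mkBi (fun β w => (g β w.1, β * w.2))
    (by
      intro a a' b
      simp only [map_add, AddMonoidHom.add_apply, add_mul, Prod.mk_add_mk])
    (by
      intro a b b'
      simp only [map_add, Prod.fst_add, Prod.snd_add, mul_add, Prod.mk_add_mk])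

theorem lift_apply (g : F4 →+ V →+ V) (β : F4) (w : V × F4) : lift g β w = (g β w.1, β * w.2) := rfl

/-- multiplication for a new line -/
def newG (x : V) : F4 →+ (V × F4) →+ (V × F4) :=
  mkBi (fun β w => (G.H (β * w.2) x + G.H β (w.1 - G.H w.2 x), β * w.2))
    (by
      intro a a' b
      simp only [map_add, AddMonoidHom.add_apply, add_mul, Prod.mk_add_mk]
      rw [add_add_add_comm])
    (by
      intro a b b'
      simp only [map_add, Prod.fst_add, Prod.snd_add, mul_add, Prod.mk_add_mk, AddMonoidHom.add_apply]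
      rw [add_sub_add_comm, map_add, add_add_add_comm])

theorem newG_apply (x : V) (β : F4) (w : V × F4) :
    G.newG x β w = (G.H (β * w.2) x + G.H β (w.1 - G.H w.2 x), β * w.2) := rfl

/-- the lines of the next geometry -/
def newj : L ⊕ V → F4 →+ (V × F4)
  | Sum.inl κ => (AddMonoidHom.inl V F4).comp (G.j κ)
  | Sum.inr x => AddMonoidHom.mk' (fun c => (G.H c x, c)) (by
      intro a b
      simp only [map_add, AddMonoidHom.add_apply, Prod.mk_add_mk])

theorem newj_inl (κ : L) (c : F4) : G.newj (Sum.inl κ) c = (G.j κ c, 0) := rfl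

theorem newj_inr (x : V) (c : F4) : G.newj (Sum.inr x) c = (G.H c x, c) := rfl

/-- multiplications of the next geometry -/
def newGG : (L ⊕ V) ⊕ Fin 2 → F4 →+ (V × F4) →+ (V × F4)
  | Sum.inl (Sum.inl κ) => lift (G.G (Sum.inl κ))
  | Sum.inl (Sum.inr x) => G.newG x
  | Sum.inr m => lift (G.G (Sum.inr m))

theorem lift_inj (g : F4 →+ V →+ V) (hg : ∀ β v, β ≠ 0 → g β v = 0 → v = 0) (β : F4) (w : V × F4)
    (hβ : β ≠ 0) (h : lift g β w = 0) : w = 0 := by
  rw [lift_apply] at h
  have h1 : g β w.1 = 0 := congrArg Prod.fst h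
  have h2 : β * w.2 = 0 := congrArg Prod.snd h
  exact Prod.ext (hg β _ hβ h1) (F4_mul_ne β _ hβ h2)

/-- the next geometry -/
def next [Finite V] : Geo (L ⊕ V) (V × F4) Θ where
  ι := (AddMonoidHom.inl V F4).comp G.ι
  j := G.newj
  π := G.π.comp (AddMonoidHom.fst V F4)
  G := G.newGG
  ι_inj := by
    intro x hx
    exact G.ι_inj x (congrArg Prod.fst hx)
  j_inj := by
    rintro (κ | x) c h
    · exact G.j_inj κ c (congrArg Prod.fst h)
    · exact congrArg Prod.snd h
  cover := by
    rintro ⟨v, c⟩ hv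
    by_cases hc : c = 0
    · subst hc
      have hv' : v ≠ 0 := by
        rintro rfl
        exact hv rfl
      rcases G.cover v hv' with ⟨x, hx⟩ | ⟨κ, c, hc⟩
      · left
        exact ⟨x, Prod.ext hx rfl⟩
      · right
        exact ⟨Sum.inl κ, c, Prod.ext hc rfl⟩
    · obtain ⟨x, hx⟩ := G.H_surj c hc v
      right
      exact ⟨Sum.inr x, c, Prod.ext hx.symm rfl⟩
  ij := by
    rintro (κ | x) c y h
    · exact G.ij κ c y (congrArg Prod.fst h)
    · exact congrArg Prod.snd h
  jj := by
    rintro (κ | x) (κ' | x') c c' h hc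
    · exact congrArg Sum.inl (G.jj κ κ' c c' (congrArg Prod.fst h) hc)
    · exfalso
      have h1 : G.j κ c = G.H c' x' := congrArg Prod.fst h
      have h2 : (0 : F4) = c' := congrArg Prod.snd h
      rw [← h2, map_zero] at h1
      exact hc (G.j_inj κ c h1)
    · exfalso
      have h2 : c = (0 : F4) := congrArg Prod.snd h
      exact hc h2
    · have h1 : G.H c x = G.H c' x' := congrArg Prod.fst h
      have h2 : c = c' := congrArg Prod.snd h
      rw [← h2] at h1
      have h3 : G.H c (x - x') = 0 := by rw [map_sub, h1, sub_self]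
      exact congrArg Sum.inr (sub_eq_zero.1 (G.H_inj c _ hc h3))
  π_ι := fun x => G.π_ι x
  G_inj := by
    rintro ((κ | x) | m) β w hβ h
    · exact lift_inj _ (G.G_inj _) β w hβ h
    · have h' : G.newG x β w = 0 := h
      rw [newG_apply] at h'
      have h1 : G.H (β * w.2) x + G.H β (w.1 - G.H w.2 x) = 0 := congrArg Prod.fst h'
      have h2 : β * w.2 = 0 := congrArg Prod.snd h'
      have h3 : w.2 = 0 := F4_mul_ne β _ hβ h2
      rw [h2, h3, map_zero, AddMonoidHom.zero_apply, zero_add, sub_zero] at h1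
      exact Prod.ext (G.H_inj β _ hβ h1) h3
    · exact lift_inj _ (G.G_inj _) β w hβ h
  G_line := by
    rintro (κ | x) β c
    · show lift (G.G (Sum.inl κ)) β (G.j κ c, 0) = (G.j κ (β * c), 0)
      rw [lift_apply, G.G_line, mul_zero]
    · show G.newG x β (G.H c x, c) = (G.H (β * c) x, β * c)
      rw [newG_apply]
      simp only [sub_self, map_zero, add_zero]
  G_hole := by
    intro m β x
    show lift (G.G (Sum.inr m)) β (G.ι x, 0) = (G.ι (Θ m β x), 0)
    rw [lift_apply, G.G_hole, mul_zero]

end Geo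

/-- the first geometry: no lines -/
def geo0 (nm : Fin 2 → F4 →+ P →+ P) (h : ∀ m β x, β ≠ 0 → nm m β x = 0 → x = 0) :
    Geo Empty P (fun m β x => nm m β x) where
  ι := AddMonoidHom.id P
  j := fun x => x.elim
  π := AddMonoidHom.id P
  G := fun x => match x with
    | Sum.inl x => x.elim
    | Sum.inr m => nm m
  ι_inj := fun _ hx => hx
  j_inj := fun κ => κ.elim
  cover := fun v _ => Or.inl ⟨v, rfl⟩
  ij := fun κ => κ.elim
  jj := fun κ => κ.elim
  π_ι := fun _ => rfl
  G_inj := by
    rintro (x | m) β v hβ hv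
    · exact x.elim
    · exact h m β v hβ hv
  G_line := fun κ => κ.elim
  G_hole := fun _ _ _ => rfl

end Pool.Agent.Lib.MP_65f012_coD
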