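import Pool.Agent.Lib.MP_65f012_coD.Defs

/-!
# The special block: eight affine points, two holes, `296` flags, the translations of `P`
-/

set_option autoImplicit false
set_option maxRecDepth 100000

namespace Pool.Agent.Lib.MP_65f012_coD

open MP_65f012_coM

namespace Hole

/-- the element of `F4` with a number -/
def f4 (n : ℕ) : F4 :=
  if n = 0 then F4.O else if n = 1 then F4.I else if n = 2 then F4.W else F4.Z

/-- the number of an element -/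
def g4 : F4 → ℕ
  | F4.O => 0
  | F4.I => 1
  | F4.W => 2
  | F4.Z => 3

/-- the element of `P` with a number -/
def p8 (n : ℕ) : P :=
  (if n % 2 = 1 then 1 else 0, if n / 2 % 2 = 1 then 1 else 0, if n / 4 % 2 = 1 then 1 else 0)

/-- the number of an element -/
def n8 (x : P) : ℕ := x.1.val + 2 * x.2.1.val + 4 * x.2.2.val

/-- holes -/
def TK : List ℕ :=
  [0, 0, 0, 0, 0, 0, 0, 0, 0, 0, 0, 0, 0, 0, 0, 0, 0, 0, 0, 0, 0, 0, 0, 0, 0, 0, 0, 0, 0, 0, 0, 1,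
   1, 1, 2, 2, 2, 0, 0, 0, 0, 0, 0, 0, 0, 0, 0, 0, 0, 0, 0, 0, 0, 0, 0, 0, 0, 0, 0, 0, 0, 0, 1, 1,
   1, 2, 2, 2, 0, 0, 0, 0, 0, 0, 0, 0, 0, 2, 0, 0, 1, 0, 0, 0, 0, 1, 2, 0, 0, 0, 0, 0, 0, 0, 0, 2,
   0, 0, 1, 0, 0, 0, 0, 0, 0, 0, 0, 0, 0, 0, 0]

/-- affine points -/
def TB : List ℕ :=
  [0, 0, 0, 0, 0, 0, 0, 0, 0, 0, 0, 0, 0, 0, 0, 0, 0, 0, 0, 0, 0, 0, 0, 0, 0, 0, 0, 0, 0, 0, 0, 0,
   0, 0, 0, 0, 0, 0, 0, 0, 0, 1, 1, 1, 2, 2, 2, 3, 3, 3, 4, 4, 4, 5, 5, 5, 6, 6, 6, 7, 7, 7, 0, 0,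
   0, 0, 0, 0, 0, 0, 0, 0, 0, 0, 0, 2, 7, 0, 4, 5, 0, 0, 2, 4, 6, 0, 0, 1, 5, 6, 1, 3, 4, 2, 5, 0,
   0, 7, 0, 1, 3, 7, 0, 3, 6, 1, 3, 7, 0, 3, 6]

/-- labels, first part -/
def TA : List ℕ :=
  [1, 2, 0, 3, 3, 4, 7, 0, 4, 4, 6, 5, 3, 3, 2, 1, 2, 5, 7, 6, 6, 0, 7, 5, 2, 1, 4, 5, 6, 1, 7, 0,
   0, 0, 0, 0, 0, 1, 0, 7, 6, 2, 3, 1, 4, 2, 6, 5, 4, 1, 7, 3, 4, 2, 6, 4, 1, 6, 7, 5, 0, 5, 3, 4,
   7, 0, 3, 3, 7, 5, 2, 3, 3, 0, 1, 4, 5, 0, 2, 7, 0, 2, 0, 1, 6, 0, 0, 4, 2, 6, 3, 6, 3, 4, 5, 0,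
   0, 7, 0, 7, 5, 2, 3, 3, 0, 1, 4, 5, 6, 1, 7]

/-- labels, second part -/
def TC : List ℕ :=
  [0, 0, 2, 2, 3, 2, 1, 1, 0, 1, 2, 3, 1, 0, 1, 1, 3, 1, 2, 0, 3, 3, 0, 2, 2, 3, 3, 0, 1, 2, 3, 3,
   2, 1, 2, 1, 3, 0, 1, 0, 1, 3, 0, 3, 0, 0, 0, 1, 3, 2, 2, 3, 1, 1, 3, 2, 1, 2, 3, 2, 2, 0, 3, 2,
   1, 2, 1, 3, 1, 3, 2, 2, 1, 3, 0, 0, 2, 2, 1, 2, 3, 0, 1, 1, 3, 2, 1, 2, 3, 0, 3, 2, 0, 1, 1, 3,
   2, 0, 1, 1, 3, 2, 2, 1, 3, 3, 3, 0, 1, 2, 3]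

/-- signs -/
def TS : List ℕ :=
  [0, 0, 0, 0, 0, 0, 0, 0, 0, 0, 0, 0, 0, 0, 0, 0, 0, 0, 0, 0, 0, 0, 0, 0, 0, 0, 0, 0, 0, 0, 0, 0,
   0, 0, 0, 0, 0, 0, 0, 0, 255, 0, 0, 0, 0, 0, 0, 0, 0, 0, 0, 0, 0, 0, 0, 0, 0, 0, 0, 0, 0, 0, 0,
   0, 0, 0, 240, 240, 0, 0, 0, 255, 240, 15, 0, 0, 0, 255, 0, 0, 0, 0, 0, 0, 0, 0, 240, 0, 0, 0,
   0, 0, 0, 0, 0, 15, 0, 0, 0, 0, 0, 0, 255, 0, 0, 0, 0, 0, 0, 240, 15]

/-- rows of a difference -/
def GA : List ℕ :=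
  [0, 1, 2, 0, 1, 2, 0, 1, 2, 0, 1, 2, 0, 1, 2, 0, 1, 2, 0, 1, 2, 0, 1, 2, 0, 1, 2, 4, 5, 6, 7, 8,
   9, 10, 11, 12, 13, 14, 15, 16, 17, 18, 19, 20, 21, 22, 23, 24, 0, 1, 2, 13, 16, 25, 1, 8, 19,
   17, 26, 29, 4, 9, 18, 5, 14, 20, 10, 15, 30, 2, 23, 27, 0, 1, 2, 4, 5, 6, 7, 8, 9, 10, 11, 12,
   13, 14, 15, 16, 17, 18, 19, 20, 21, 22, 23, 24, 0, 1, 2, 0, 1, 2, 0, 1, 2, 0, 1, 2, 0, 1, 2, 0,
   1, 2, 0, 1, 2, 0, 1, 2, 0, 1, 2, 14, 18, 31, 1, 7, 15, 20, 32, 35, 5, 16, 19, 4, 10, 13, 9, 17,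
   36, 2, 22, 33, 0, 1, 2, 13, 16, 25, 1, 8, 19, 17, 26, 29, 4, 9, 18, 5, 14, 20, 10, 15, 30, 2,
   23, 27, 0, 1, 2, 14, 18, 31, 1, 7, 15, 20, 32, 35, 5, 16, 19, 4, 10, 13, 9, 17, 36, 2, 22, 33,
   0, 1, 2, 0, 1, 2, 0, 1, 2, 0, 1, 2, 0, 1, 2, 0, 1, 2, 0, 1, 2, 0, 1, 2]

/-- rows of the difference zero -/
def GD : List ℕ :=
  [0, 1, 2, 3, 0, 1, 2, 3, 0, 7, 22, 28, 0, 1, 2, 3, 0, 1, 2, 3, 0, 8, 23, 34, 0, 7, 22, 28, 0, 8,
   23, 34, 0, 1, 2, 3]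

/-- rows with a hole -/
def GH : List ℕ :=
  [0, 1, 2, 0, 1, 2, 25, 26, 27, 28, 29, 30, 6, 11, 24, 3, 12, 21, 31, 32, 33, 34, 35, 36, 0, 1, 2,
   0, 1, 2, 6, 11, 24, 3, 12, 21, 31, 32, 33, 34, 35, 36, 25, 26, 27, 28, 29, 30, 0, 1, 2, 0, 1,
   2]

/-- multiplications at the holes -/
def NM : List ℕ :=
  [0, 0, 0, 0, 0, 0, 0, 0, 0, 1, 2, 3, 4, 5, 6, 7, 0, 2, 6, 4, 1, 3, 7, 5, 0, 3, 4, 7, 5, 6, 1, 2,
   0, 0, 0, 0, 0, 0, 0, 0, 0, 1, 2, 3, 4, 5, 6, 7, 0, 3, 4, 7, 1, 2, 5, 6, 0, 2, 6, 4, 5, 7, 3, 1]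

/-- the hole of a position -/
def k (s : Fin 3) (r : Fin 37) : Option (Fin 2) :=
  if TK.getD (37 * s + r) 0 = 1 then some 0 else if TK.getD (37 * s + r) 0 = 2 then some 1 else none

/-- the affine point of a position -/
def b (s : Fin 3) (r : Fin 37) : P := p8 (TB.getD (37 * s + r) 0)

/-- label, first part -/
def α (s : Fin 3) (r : Fin 37) : P := p8 (TA.getD (37 * s + r) 0)

/-- label, second part -/
def β (s : Fin 3) (r : Fin 37) : F4 := f4 (TC.getD (37 * s + r) 0)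

/-- sign -/
def σ (s : Fin 3) (r : Fin 37) (x : P) : ZMod 2 :=
  if TS.getD (37 * s + r) 0 / 2 ^ n8 x % 2 = 1 then 1 else 0

/-- rows of a difference -/
def ga (s t : Fin 3) (d : P) (m : Fin 3) : Fin 37 :=
  Fin.ofNat 37 (GA.getD (72 * s + 24 * t + 3 * n8 d + m) 0)

/-- rows of the difference zero -/
def gd (s t : Fin 3) (m : Fin 4) : Fin 37 := Fin.ofNat 37 (GD.getD (12 * s + 4 * t + m) 0)

/-- rows with a hole -/
def gh (s t : Fin 3) (η : Fin 2) (m : Fin 3) : Fin 37 :=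
  Fin.ofNat 37 (GH.getD (18 * s + 6 * t + 3 * η + m) 0)

/-- the multiplications -/
def nmf (m : Fin 2) (c : F4) (x : P) : P := p8 (NM.getD (32 * m + 8 * g4 c + n8 x) 0)

theorem nmf_zero (m : Fin 2) (c : F4) : nmf m c 0 = 0 := by
  revert m c
  decide +kernel

theorem nmf_add (m : Fin 2) (c : F4) (x y : P) : nmf m c (x + y) = nmf m c x + nmf m c y := by
  revert m c x y
  decide +kernel

theorem nmf_zero' (m : Fin 2) (x : P) : nmf m 0 x = 0 := by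
  revert m x
  decide +kernel

theorem nmf_add' (m : Fin 2) (c d : F4) (x : P) : nmf m (c + d) x = nmf m c x + nmf m d x := by
  revert m c d x
  decide +kernel

theorem nmf_inj (m : Fin 2) (c : F4) (x : P) (hc : c ≠ 0) (h : nmf m c x = 0) : x = 0 := by
  revert m c x
  decide +kernel

theorem one (s t : Fin 3) (r : Fin 37) (h : s ≠ t) (h1 : k s r ≠ none) : k t r = none := by
  revert s t r
  decide +kernel

theorem inj (s : Fin 3) (r r' : Fin 37) (h1 : k s r = none) (h2 : k s r' = none)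
    (h3 : α s r = α s r') (h4 : β s r = β s r') : r = r' := by
  revert s r r'
  decide +kernel

theorem injH (s : Fin 3) (r r' : Fin 37) (h1 : k s r ≠ none) (h2 : k s r = k s r')
    (h4 : β s r = β s r') : r = r' := by
  revert s r r'
  decide +kernel

theorem hβ (s : Fin 3) (r : Fin 37) (h : k s r ≠ none) : β s r ≠ 0 := by
  revert s r
  decide +kernel

theorem ne0 (s : Fin 3) (r : Fin 37) (h : k s r = none) (h1 : α s r = 0) : β s r ≠ 0 := by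
  revert s r
  decide +kernel

theorem ga1 (s t : Fin 3) (d : P) (h : s ≠ t) (hd : d ≠ 0) (m : Fin 3) :
    k s (ga s t d m) = none ∧ k t (ga s t d m) = none ∧
      b t (ga s t d m) = b s (ga s t d m) + d := by
  revert s t d m
  decide +kernel

theorem ga2' (s t : Fin 3) (r : Fin 37) (h : s ≠ t) (h1 : k s r = none) (h2 : k t r = none)
    (h3 : b t r ≠ b s r) : ∃ m, ga s t (b t r - b s r) m = r := by
  revert s t r
  decide +kernel

theorem ga2 (s t : Fin 3) (d : P) (h : s ≠ t) (hd : d ≠ 0) (r : Fin 37)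
    (h1 : k s r = none ∧ k t r = none ∧ b t r = b s r + d) : ∃ m, ga s t d m = r := by
  obtain ⟨h2, h3, h4⟩ := h1
  have h5 : b t r - b s r = d := by
    rw [h4, add_sub_cancel_left]
  have h6 := ga2' s t r h h2 h3 (fun h7 => hd (by
    rw [← h5, h7, sub_self]))
  rw [h5] at h6
  exact h6

theorem ga3 (s t : Fin 3) (d : P) (h : s ≠ t) (hd : d ≠ 0) (m m' : Fin 3)
    (e : ga s t d m = ga s t d m') : m = m' := by
  revert s t d m m'
  decide +kernel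

theorem ga4 (s t : Fin 3) (d : P) (h : s ≠ t) (hd : d ≠ 0) :
    α s (ga s t d 0) + α s (ga s t d 1) + α s (ga s t d 2) = 0 ∧
      β s (ga s t d 0) + β s (ga s t d 1) + β s (ga s t d 2) = 0 := by
  revert s t d
  decide +kernel

/-- the sign of a row at an affine point of the position `s` -/
def sx (s t : Fin 3) (r : Fin 37) (x : P) : ZMod 2 :=
  σ s r (x - b s r) + σ t r (x - b s r)

theorem ga5 (s t : Fin 3) (d : P) (h : s ≠ t) (hd : d ≠ 0) (x : P) :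
    sx s t (ga s t d 0) x + sx s t (ga s t d 1) x + sx s t (ga s t d 2) x = 0 := by
  have key : ∀ (x d : P) (s t : Fin 3), s ≠ t → d ≠ 0 →
      sx s t (ga s t d 0) x + sx s t (ga s t d 1) x + sx s t (ga s t d 2) x = 0 := by
    decide +kernel
  exact key x d s t h hd

theorem gd1 (s t : Fin 3) (h : s ≠ t) (m : Fin 4) :
    k s (gd s t m) = none ∧ k t (gd s t m) = none ∧ b t (gd s t m) = b s (gd s t m) := by
  revert s t m
  decide +kernel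

theorem gd2 (s t : Fin 3) (h : s ≠ t) (r : Fin 37)
    (h1 : k s r = none ∧ k t r = none ∧ b t r = b s r) : ∃ m, gd s t m = r := by
  revert s t r
  decide +kernel

theorem gd3 (s t : Fin 3) (h : s ≠ t) (m m' : Fin 4) (e : gd s t m = gd s t m') : m = m' := by
  revert s t m m'
  decide +kernel

theorem gd4 (s t : Fin 3) (h : s ≠ t) :
    α s (gd s t 0) + α s (gd s t 1) + α s (gd s t 2) + α s (gd s t 3) = 0 ∧
      β s (gd s t 0) + β s (gd s t 1) + β s (gd s t 2) + β s (gd s t 3) = 0 := by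
  revert s t
  decide +kernel

theorem gd5 (s t : Fin 3) (h : s ≠ t) (x : P) :
    sx s t (gd s t 0) x + sx s t (gd s t 1) x + sx s t (gd s t 2) x + sx s t (gd s t 3) x = 1 := by
  revert s t x
  decide +kernel

theorem gh1 (s t : Fin 3) (η : Fin 2) (h : s ≠ t) (m : Fin 3) :
    k s (gh s t η m) = none ∧ k t (gh s t η m) = some η := by
  revert s t η m
  decide +kernel

theorem gh2 (s t : Fin 3) (η : Fin 2) (h : s ≠ t) (r : Fin 37)
    (h1 : k s r = none ∧ k t r = some η) : ∃ m, gh s t η m = r := by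
  revert s t η r
  decide +kernel

theorem gh3 (s t : Fin 3) (η : Fin 2) (h : s ≠ t) (m m' : Fin 3)
    (e : gh s t η m = gh s t η m') : m = m' := by
  revert s t η m m'
  decide +kernel

theorem gh4 (s t : Fin 3) (η : Fin 2) (h : s ≠ t) :
    α s (gh s t η 0) + α s (gh s t η 1) + α s (gh s t η 2) = 0 ∧
      β s (gh s t η 0) + β s (gh s t η 1) + β s (gh s t η 2) = 0 ∧
      (α t (gh s t η 0) - nmf η (β t (gh s t η 0)) (b s (gh s t η 0))) +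
        (α t (gh s t η 1) - nmf η (β t (gh s t η 1)) (b s (gh s t η 1))) +
        (α t (gh s t η 2) - nmf η (β t (gh s t η 2)) (b s (gh s t η 2))) = 0 ∧
      β t (gh s t η 0) + β t (gh s t η 1) + β t (gh s t η 2) = 0 := by
  revert s t η
  decide +kernel

theorem gh5 (s t : Fin 3) (η : Fin 2) (h : s ≠ t) (x : P) :
    sx s t (gh s t η 0) x + sx s t (gh s t η 1) x + sx s t (gh s t η 2) x = 0 := by
  revert s t η x
  decide +kernel

end Hole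

/-- the multiplications at the two holes -/
def nm (m : Fin 2) : F4 →+ P →+ P where
  toFun c :=
    { toFun := Hole.nmf m c
      map_zero' := Hole.nmf_zero m c
      map_add' := Hole.nmf_add m c }
  map_zero' := AddMonoidHom.ext fun x => Hole.nmf_zero' m x
  map_add' c d := AddMonoidHom.ext fun x => Hole.nmf_add' m c d x

theorem nm_inj (m : Fin 2) (b : F4) (x : P) (hb : b ≠ 0) (h : nm m b x = 0) : x = 0 :=
  Hole.nmf_inj m b x hb h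

/-- the special block -/
def hole : LocS 3 (Fin 37) P (Fin 2) where
  k := Hole.k
  b := Hole.b
  α := Hole.α
  β := Hole.β
  σ := Hole.σ
  Θ m b x := nm m b x
  one := Hole.one
  inj := Hole.inj
  injH := Hole.injH
  hβ := Hole.hβ
  aff s t d h hd := ⟨Hole.ga s t d, fun m m' e => Hole.ga3 s t d h hd m m' e,
    fun r => ⟨fun h1 => Hole.ga2 s t d h hd r h1, by
      rintro ⟨m, rfl⟩
      exact Hole.ga1 s t d h hd m⟩, by
      rw [Fin.sum_univ_three]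
      exact (Hole.ga4 s t d h hd).1, by
      rw [Fin.sum_univ_three]
      exact (Hole.ga4 s t d h hd).2, fun x => by
      rw [Fin.sum_univ_three]
      exact Hole.ga5 s t d h hd x⟩
  hole s t η h := ⟨Hole.gh s t η, fun m m' e => Hole.gh3 s t η h m m' e,
    fun r => ⟨fun h1 => Hole.gh2 s t η h r h1, by
      rintro ⟨m, rfl⟩
      exact Hole.gh1 s t η h m⟩, by
      rw [Fin.sum_univ_three]
      exact (Hole.gh4 s t η h).1, by
      rw [Fin.sum_univ_three]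
      exact (Hole.gh4 s t η h).2.1, by
      rw [Fin.sum_univ_three]
      exact (Hole.gh4 s t η h).2.2.1, by
      rw [Fin.sum_univ_three]
      exact (Hole.gh4 s t η h).2.2.2, fun x => by
      rw [Fin.sum_univ_three]
      exact Hole.gh5 s t η h x⟩
  ne0 := Hole.ne0
  diag s t h := ⟨Hole.gd s t, fun m m' e => Hole.gd3 s t h m m' e,
    fun r => ⟨fun h1 => Hole.gd2 s t h r h1, by
      rintro ⟨m, rfl⟩
      exact Hole.gd1 s t h m⟩, by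
      rw [Fin.sum_univ_four]
      exact (Hole.gd4 s t h).1, by
      rw [Fin.sum_univ_four]
      exact (Hole.gd4 s t h).2, fun x => by
      rw [Fin.sum_univ_four]
      exact Hole.gd5 s t h x⟩

theorem hole_Θ : hole.Θ = fun m b x => nm m b x := rfl

end Pool.Agent.Lib.MP_65f012_coD
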