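import Pool.Agent.Lib.MP_65f012_coD.Defs
import Pool.Agent.Lib.MP_65f012_coM.Chi
import Pool.Agent.Lib.MP_65f012_co.Defs

/-!
# The linked system of a system of flags
-/

set_option autoImplicit false
set_option linter.unusedSectionVars false

namespace Pool.Agent.Lib.MP_65f012_coD

open Classical MP_65f012_co
open MP_65f012_coM (F4 Du sg sg_add sg_mul_self sg_zero sg_sum orth1 orth2 card_Du zmod2_cases)

theorem sum_range {F : Type} [Fintype F] {M : Type} [AddCommMonoid M] {n : ℕ} (g : Fin n → F)
    (hg : Function.Injective g) (C : F → Prop) [DecidablePred C] (hC : ∀ f, C f ↔ ∃ m, g m = f)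
    (φ : F → M) :
    ∑ m, φ (g m) = ∑ f, if C f then φ f else 0 := by
  rw [← Finset.sum_filter]
  have h1 : Finset.univ.filter C = Finset.univ.image g := by
    ext f
    simp only [Finset.mem_filter, Finset.mem_univ, true_and, Finset.mem_image]
    exact hC f
  rw [h1, Finset.sum_image (fun a _ b _ h => hg h)]

theorem sg_four (τ : Fin 4 → ZMod 2) (h : ∑ m, τ m = 1) :
    2 + ∑ m, sg (τ m) = 0 ∨ 2 + ∑ m, sg (τ m) = 4 := by
  revert τ; decide

namespace Sys

variable {μ : ℕ} {F Ω V : Type} [AddCommGroup V] [Fintype F] [Fintype Ω] [Fintype V]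
  (S : Sys μ F Ω V)

/-- the vector of a point -/
noncomputable def u (s : Fin μ) (X : Ω × Du V) (f : F) : ℤ :=
  if S.p s f = X.1 then sg (X.2 (S.a s f) + S.h s f) else 0

/-- inner products -/
noncomputable def ip (s t : Fin μ) (X Y : Ω × Du V) : ℤ := ∑ f, S.u s X f * S.u t Y f

/-- constants -/
noncomputable def be (i j : Ω) : ℤ := if i = j then 2 else 1

/-- incidence -/
def Inc (s t : Fin μ) (X Y : Ω × Du V) : Prop := be X.1 Y.1 + S.ip s t X Y = 4

/-- incidence matrix -/
noncomputable def N (s t : Fin μ) (X Y : Ω × Du V) : ℤ := if S.Inc s t X Y then 1 else 0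

theorem ip_symm (s t : Fin μ) (X Y : Ω × Du V) : S.ip s t X Y = S.ip t s Y X := by
  unfold ip
  exact Finset.sum_congr rfl fun f _ => mul_comm _ _

theorem be_symm (i j : Ω) : be i j = be j i := by
  unfold be
  by_cases h : i = j
  · rw [h]
  · rw [if_neg h, if_neg (fun h' => h h'.symm)]

theorem Inc_symm (s t : Fin μ) (X Y : Ω × Du V) : S.Inc s t X Y ↔ S.Inc t s Y X := by
  unfold Inc
  rw [S.ip_symm, be_symm]

theorem N_symm (s t : Fin μ) (X Y : Ω × Du V) : S.N s t X Y = S.N t s Y X := by
  unfold N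
  by_cases h : S.Inc s t X Y
  · rw [if_pos h, if_pos ((S.Inc_symm s t X Y).1 h)]
  · rw [if_neg h, if_neg (fun h' => h ((S.Inc_symm s t X Y).2 h'))]

/-- the bit of a flag -/
def bit (s t : Fin μ) (X Y : Ω × Du V) (f : F) : ZMod 2 :=
  (X.2 (S.a s f) + S.h s f) + (Y.2 (S.a t f) + S.h t f)

theorem ip_eq (s t : Fin μ) (X Y : Ω × Du V) :
    S.ip s t X Y = ∑ f, if (S.p s f = X.1 ∧ S.p t f = Y.1) then sg (S.bit s t X Y f) else 0 := by
  unfold ip u bit
  refine Finset.sum_congr rfl fun f _ => ?_
  by_cases h1 : S.p s f = X.1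
  · by_cases h2 : S.p t f = Y.1
    · rw [if_pos h1, if_pos h2, if_pos ⟨h1, h2⟩, ← sg_add]
    · rw [if_neg h2, if_neg (fun h : S.p s f = X.1 ∧ S.p t f = Y.1 => h2 h.2), mul_zero]
  · rw [if_neg h1, if_neg (fun h : S.p s f = X.1 ∧ S.p t f = Y.1 => h1 h.1), zero_mul]

theorem lab_sum (s t : Fin μ) (hst : s ≠ t) (i j : Ω) :
    ∑ f, (if (S.p s f = i ∧ S.p t f = j) then S.a s f else 0) = 0 := by
  by_cases hij : i = j
  · subst hij
    obtain ⟨g, h1, h2, h3, _⟩ := S.diag s t i hst
    rw [← sum_range g h1 _ h2]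
    exact h3
  · obtain ⟨g, h1, h2, h3, _⟩ := S.off s t i j hst hij
    rw [← sum_range g h1 _ h2]
    exact h3

theorem bits {n : ℕ} (s t : Fin μ) (hst : s ≠ t) (X Y : Ω × Du V) (g : Fin n → F)
    (hg : Function.Injective g) (hC : ∀ f, (S.p s f = X.1 ∧ S.p t f = Y.1) ↔ ∃ m, g m = f) :
    ∑ m, S.bit s t X Y (g m) = ∑ m, (S.h s (g m) + S.h t (g m)) := by
  have h1 : ∑ m, S.a s (g m) = 0 := by
    rw [sum_range g hg _ hC]
    exact S.lab_sum s t hst _ _
  have h2 : ∑ m, S.a t (g m) = 0 := by
    rw [sum_range g hg _ (fun f => and_comm.trans (hC f))]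
    exact S.lab_sum t s hst.symm _ _
  have h3 : ∀ m, S.bit s t X Y (g m) =
      (X.2 (S.a s (g m)) + Y.2 (S.a t (g m))) + (S.h s (g m) + S.h t (g m)) := by
    intro m
    unfold bit
    ring
  simp only [h3, Finset.sum_add_distrib]
  rw [← map_sum, ← map_sum, h1, h2, map_zero, map_zero, add_zero, zero_add]

theorem key (s t : Fin μ) (hst : s ≠ t) (X Y : Ω × Du V) :
    4 * S.N s t X Y = be X.1 Y.1 + S.ip s t X Y := by
  have h : be X.1 Y.1 + S.ip s t X Y = 0 ∨ be X.1 Y.1 + S.ip s t X Y = 4 := by
    rw [S.ip_eq]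
    by_cases hij : X.1 = Y.1
    · obtain ⟨g, h1, h2, _, h4⟩ := S.diag s t X.1 hst
      have h2' : ∀ f, (S.p s f = X.1 ∧ S.p t f = Y.1) ↔ ∃ m, g m = f := by
        rw [← hij]
        exact h2
      rw [← sum_range g h1 _ h2']
      unfold be
      rw [if_pos hij]
      exact sg_four _ ((S.bits s t hst X Y g h1 h2').trans h4)
    · obtain ⟨g, h1, h2, _, h4⟩ := S.off s t X.1 Y.1 hst hij
      rw [← sum_range g h1 _ h2]
      unfold be
      rw [if_neg hij, sg_sum _ ((S.bits s t hst X Y g h1 h2).trans h4)]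
      split_ifs
      · right; rfl
      · left; rfl
  unfold N Inc
  rcases h with h | h
  · rw [h]
    norm_num
  · rw [h]
    norm_num

theorem card_D (hV : ∀ v : V, v + v = 0) : (Fintype.card (Du V) : ℤ) = Fintype.card V := by
  have h := card_Du (V := V) hV
  rw [Nat.card_eq_fintype_card, Nat.card_eq_fintype_card] at h
  exact_mod_cast h

theorem sum_u (hV : ∀ v : V, v + v = 0) (s : Fin μ) (φ : Ω → ℤ) (f : F) :
    ∑ Z, φ Z.1 * S.u s Z f = 0 := by
  rw [Fintype.sum_prod_type]
  refine Finset.sum_eq_zero fun i _ => ?_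
  unfold u
  by_cases h : S.p s f = i
  · simp only [h, if_true, sg_add]
    rw [← Finset.mul_sum, ← Finset.sum_mul, orth1 hV _ (S.ne0 s f), zero_mul, mul_zero]
  · simp only [h, if_false, mul_zero, Finset.sum_const_zero]

theorem orth (hV : ∀ v : V, v + v = 0) (s : Fin μ) (f g : F) :
    ∑ Z, S.u s Z f * S.u s Z g = if f = g then (Fintype.card V : ℤ) else 0 := by
  rw [Fintype.sum_prod_type]
  unfold u
  by_cases h : f = g
  · subst h
    rw [if_pos rfl, Finset.sum_eq_single (S.p s f)]
    · simp only [if_true, sg_mul_self]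
      rw [Finset.sum_const, Finset.card_univ, nsmul_eq_mul, mul_one, card_D hV]
    · intro i _ hi
      have hi' : ¬ S.p s f = i := fun h => hi h.symm
      simp only [hi', if_false, mul_zero, Finset.sum_const_zero]
    · intro h
      exact absurd (Finset.mem_univ _) h
  · rw [if_neg h]
    refine Finset.sum_eq_zero fun i _ => ?_
    by_cases h1 : S.p s f = i
    · by_cases h2 : S.p s g = i
      · simp only [h1, h2, if_true]
        have h3 : S.a s f + S.a s g ≠ 0 := by
          intro h4
          have h5 : S.a s f = S.a s g := by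
            have h6 := hV (S.a s g)
            exact add_right_cancel (h4.trans h6.symm)
          exact h (S.inj s f g (h1.trans h2.symm) h5)
        have h4 : ∀ p : Du V, sg (p (S.a s f) + S.h s f) * sg (p (S.a s g) + S.h s g) =
            sg (p (S.a s f + S.a s g)) * sg (S.h s f + S.h s g) := by
          intro p
          rw [← sg_add, ← sg_add, map_add]
          congr 1
          ring
        simp only [h4]
        rw [← Finset.sum_mul, orth1 hV _ h3, zero_mul]
      · simp only [h2, if_false, mul_zero, Finset.sum_const_zero]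
    · simp only [h1, if_false, zero_mul, Finset.sum_const_zero]

theorem be_sum (hV : ∀ v : V, v + v = 0) (i : Ω) :
    ∑ Z : Ω × Du V, be i Z.1 = Fintype.card V * (Fintype.card Ω + 1) := by
  rw [Fintype.sum_prod_type]
  have h : ∀ k : Ω, ∑ _p : Du V, be i k = (Fintype.card V : ℤ) * (1 + if i = k then 1 else 0) := by
    intro k
    rw [Finset.sum_const, Finset.card_univ, nsmul_eq_mul, card_D hV]
    unfold be
    by_cases h : i = k
    · rw [if_pos h, if_pos h]
      ring
    · rw [if_neg h, if_neg h]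
      ring
  simp only [h]
  rw [← Finset.mul_sum, Finset.sum_add_distrib, Finset.sum_ite_eq, if_pos (Finset.mem_univ _),
    Finset.sum_const, Finset.card_univ, nsmul_eq_mul, mul_one]

theorem be_be (hV : ∀ v : V, v + v = 0) (i j : Ω) :
    ∑ Z : Ω × Du V, be i Z.1 * be Z.1 j =
      Fintype.card V * (Fintype.card Ω + 2 + if i = j then 1 else 0) := by
  rw [Fintype.sum_prod_type]
  have h : ∀ k : Ω, ∑ _p : Du V, be i k * be k j =
      (Fintype.card V : ℤ) * (1 + (if i = k then 1 else 0) + (if k = j then 1 else 0) +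
        (if i = k then (if i = j then 1 else 0) else 0)) := by
    intro k
    rw [Finset.sum_const, Finset.card_univ, nsmul_eq_mul, card_D hV]
    unfold be
    by_cases h : i = k
    · subst h
      by_cases h' : i = j
      · simp only [h', if_true]
        ring
      · simp only [h', if_true, if_false]
        ring
    · by_cases h' : k = j
      · subst h'
        simp only [h, if_true, if_false]
        ring
      · simp only [h, h', if_false]
        ring
  simp only [h]
  rw [← Finset.mul_sum, Finset.sum_add_distrib, Finset.sum_add_distrib, Finset.sum_add_distrib,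
    Finset.sum_ite_eq, Finset.sum_ite_eq, Finset.sum_ite_eq', if_pos (Finset.mem_univ _),
    if_pos (Finset.mem_univ _), Finset.sum_const, Finset.card_univ, nsmul_eq_mul, mul_one]
  simp only [Finset.mem_univ, if_true]
  ring

theorem prod (hV : ∀ v : V, v + v = 0) (s t r : Fin μ) (hst : s ≠ t) (htr : t ≠ r) (X Y : Ω × Du V) :
    16 * ∑ Z, S.N s t X Z * S.N t r Z Y =
      Fintype.card V * (Fintype.card Ω + 2 + (if X.1 = Y.1 then 1 else 0) + S.ip s r X Y) := by
  have h1 : 16 * ∑ Z, S.N s t X Z * S.N t r Z Y =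
      ∑ Z : Ω × Du V, (be X.1 Z.1 * be Z.1 Y.1 + be X.1 Z.1 * S.ip t r Z Y + be Z.1 Y.1 * S.ip s t X Z +
        S.ip s t X Z * S.ip t r Z Y) := by
    rw [Finset.mul_sum]
    refine Finset.sum_congr rfl fun Z _ => ?_
    have a := S.key s t hst X Z
    have b := S.key t r htr Z Y
    have c : 16 * (S.N s t X Z * S.N t r Z Y) = (4 * S.N s t X Z) * (4 * S.N t r Z Y) := by ring
    rw [c, a, b]
    ring
  have h2 : ∑ Z : Ω × Du V, be X.1 Z.1 * S.ip t r Z Y = 0 := by
    unfold ip
    simp only [Finset.mul_sum]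
    rw [Finset.sum_comm]
    refine Finset.sum_eq_zero fun f _ => ?_
    have h3 := S.sum_u hV t (fun k => be X.1 k) f
    have h4 : ∀ Z : Ω × Du V, be X.1 Z.1 * (S.u t Z f * S.u r Y f) = (be X.1 Z.1 * S.u t Z f) * S.u r Y f :=
      fun Z => by ring
    simp only [h4]
    rw [← Finset.sum_mul, h3, zero_mul]
  have h3 : ∑ Z : Ω × Du V, be Z.1 Y.1 * S.ip s t X Z = 0 := by
    unfold ip
    simp only [Finset.mul_sum]
    rw [Finset.sum_comm]
    refine Finset.sum_eq_zero fun f _ => ?_
    have h3 := S.sum_u hV t (fun k => be k Y.1) f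
    have h4 : ∀ Z : Ω × Du V, be Z.1 Y.1 * (S.u s X f * S.u t Z f) = S.u s X f * (be Z.1 Y.1 * S.u t Z f) :=
      fun Z => by ring
    simp only [h4]
    rw [← Finset.mul_sum, h3, mul_zero]
  have h4 : ∑ Z : Ω × Du V, S.ip s t X Z * S.ip t r Z Y = Fintype.card V * S.ip s r X Y := by
    have e1 : ∀ Z : Ω × Du V, S.ip s t X Z * S.ip t r Z Y =
        ∑ f, ∑ g, (S.u s X f * S.u r Y g) * (S.u t Z f * S.u t Z g) := by
      intro Z
      unfold ip
      rw [Finset.sum_mul_sum]
      refine Finset.sum_congr rfl fun f _ => Finset.sum_congr rfl fun g _ => ?_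
      ring
    simp only [e1]
    rw [Finset.sum_comm]
    unfold ip
    rw [Finset.mul_sum]
    refine Finset.sum_congr rfl fun f _ => ?_
    rw [Finset.sum_comm]
    simp only [← Finset.mul_sum, S.orth hV t f, mul_ite, mul_zero]
    rw [Finset.sum_ite_eq, if_pos (Finset.mem_univ _)]
    ring
  rw [h1, Finset.sum_add_distrib, Finset.sum_add_distrib, Finset.sum_add_distrib, h2, h3, h4, be_be hV]
  ring

theorem row (hV : ∀ v : V, v + v = 0) (s t : Fin μ) (hst : s ≠ t) (X : Ω × Du V) :
    4 * ∑ Z, S.N s t X Z = Fintype.card V * (Fintype.card Ω + 1) := by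
  rw [Finset.mul_sum]
  simp only [S.key s t hst X]
  rw [Finset.sum_add_distrib, be_sum hV]
  have h3 : ∑ Z : Ω × Du V, S.ip s t X Z = 0 := by
    unfold ip
    rw [Finset.sum_comm]
    refine Finset.sum_eq_zero fun f _ => ?_
    have h3 := S.sum_u hV t (fun _ => 1) f
    simp only [one_mul] at h3
    rw [← Finset.mul_sum, h3, mul_zero]
  rw [h3, add_zero]

theorem card_pt (s t : Fin μ) (hst : s ≠ t) (i : Ω) (hc : 3 * Fintype.card Ω + 2 = Fintype.card V) :
    (Finset.univ.filter fun f => S.p s f = i).card + 1 = Fintype.card V := by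
  have h1 : (Finset.univ.filter fun f => S.p s f = i).card =
      ∑ j : Ω, (Finset.univ.filter fun f => S.p s f = i ∧ S.p t f = j).card := by
    have h2 := Finset.card_eq_sum_card_fiberwise (s := Finset.univ.filter fun f => S.p s f = i)
      (t := (Finset.univ : Finset Ω)) (f := fun f => S.p t f) (fun _ _ => Finset.mem_univ _)
    rw [h2]
    refine Finset.sum_congr rfl fun j _ => ?_
    rw [Finset.filter_filter]
  have h2 : ∀ j : Ω, (Finset.univ.filter fun f => S.p s f = i ∧ S.p t f = j).card =
      3 + if i = j then 1 else 0 := by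
    intro j
    rw [Finset.card_filter]
    by_cases hij : i = j
    · subst hij
      obtain ⟨g, h1, h2, _, _⟩ := S.diag s t i hst
      rw [← sum_range g h1 _ h2 (fun _ => 1)]
      simp
    · obtain ⟨g, h1, h2, _, _⟩ := S.off s t i j hst hij
      rw [← sum_range g h1 _ h2 (fun _ => 1)]
      simp [hij]
  rw [h1]
  simp only [h2]
  rw [Finset.sum_add_distrib, Finset.sum_ite_eq, if_pos (Finset.mem_univ _), Finset.sum_const,
    Finset.card_univ, smul_eq_mul]
  omega

theorem self (s t : Fin μ) (hst : s ≠ t)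
    (hc : 3 * Fintype.card Ω + 2 = Fintype.card V) (X Y : Ω × Du V) (hXY : X ≠ Y) :
    (if X.1 = Y.1 then 1 else 0) + S.ip s s X Y = 0 := by
  obtain ⟨i, x⟩ := X
  obtain ⟨j, y⟩ := Y
  by_cases hij : i = j
  · subst hij
    have hxy : x ≠ y := fun h => hXY (by rw [h])
    have h1 : S.ip s s (i, x) (i, y) =
        ∑ f ∈ Finset.univ.filter (fun f => S.p s f = i), sg (x (S.a s f)) * sg (y (S.a s f)) := by
      rw [Finset.sum_filter]
      unfold ip u
      refine Finset.sum_congr rfl fun f _ => ?_
      by_cases h : S.p s f = i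
      · simp only [h, if_true, sg_add]
        have := sg_mul_self (S.h s f)
        linear_combination (sg (x (S.a s f)) * sg (y (S.a s f))) * this
      · simp only [h, if_false, mul_zero]
    have h2 : ∑ f ∈ Finset.univ.filter (fun f => S.p s f = i), sg (x (S.a s f)) * sg (y (S.a s f)) =
        ∑ v ∈ (Finset.univ.filter (fun f => S.p s f = i)).image (S.a s), sg (x v) * sg (y v) := by
      rw [Finset.sum_image]
      intro f hf g hg h
      have hf' : S.p s f = i := (Finset.mem_filter.1 hf).2
      have hg' : S.p s g = i := (Finset.mem_filter.1 hg).2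
      exact S.inj s f g (hf'.trans hg'.symm) h
    have h3 : (Finset.univ.filter (fun f => S.p s f = i)).image (S.a s) = Finset.univ.erase 0 := by
      refine Finset.eq_of_subset_of_card_le ?_ ?_
      · intro v hv
        obtain ⟨f, _, rfl⟩ := Finset.mem_image.1 hv
        exact Finset.mem_erase.2 ⟨S.ne0 s f, Finset.mem_univ _⟩
      · rw [Finset.card_erase_of_mem (Finset.mem_univ _), Finset.card_univ, Finset.card_image_of_injOn]
        · have := S.card_pt s t hst i hc
          omega
        · intro f hf g hg h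
          have hf' : S.p s f = i := (Finset.mem_filter.1 hf).2
          have hg' : S.p s g = i := (Finset.mem_filter.1 hg).2
          exact S.inj s f g (hf'.trans hg'.symm) h
    have h4 := orth2 x y hxy
    have h5 := Finset.add_sum_erase (Finset.univ : Finset V) (fun v => sg (x v) * sg (y v))
      (Finset.mem_univ 0)
    have h6 : sg (x 0) * sg (y 0) = 1 := by
      rw [map_zero, map_zero, sg_zero, mul_one]
    simp only [if_true]
    rw [h1, h2, h3]
    simp only [h6] at h5
    linarith
  · simp only [hij, if_false]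
    unfold ip u
    rw [zero_add]
    refine Finset.sum_eq_zero fun f _ => ?_
    by_cases h : S.p s f = i
    · have h' : ¬ S.p s f = j := fun h' => hij (h.symm.trans h')
      simp only [h', if_false, mul_zero]
    · simp only [h, if_false, zero_mul]

theorem card_sum (Q : Ω × Du V → Prop) :
    (Nat.card {w : Ω × Du V // Q w} : ℤ) = ∑ w, (if Q w then (1 : ℤ) else 0) := by
  rw [Nat.card_eq_fintype_card, Fintype.card_subtype, Finset.sum_boole]

theorem card_and (Q R : Ω × Du V → Prop) :
    (Nat.card {w : Ω × Du V // Q w ∧ R w} : ℤ) =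
      ∑ w, (if Q w then (1 : ℤ) else 0) * (if R w then (1 : ℤ) else 0) := by
  rw [card_sum]
  refine Finset.sum_congr rfl fun w _ => ?_
  by_cases h1 : Q w <;> by_cases h2 : R w <;> simp [h1, h2]

/-- the linked system -/
theorem linked (T : Sys μ F Ω V) (hV : ∀ v : V, v + v = 0) (hμ : 2 < μ) (hc : 3 * Fintype.card Ω + 2 = Fintype.card V)
    (c w n : ℕ) (h1 : Fintype.card V = 16 * c) (h2 : Fintype.card Ω = w) (hw : 2 ≤ w)
    (hn : n = w * (16 * c)) : ∃ L : MP_65f012_co.LinkedSystem μ n, ∀ i j, i ≠ j →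
      L.k i j = 4 * c * (w + 1) ∧ L.lam i j = c * (w + 2) := by
  have hc0 : 0 < c := by
    rcases Nat.eq_zero_or_pos c with h | h
    · subst h
      omega
    · exact h
  refine ⟨{
    two_lt := hμ
    S := fun _ => Ω × Du V
    finite := fun _ => inferInstance
    card_S := fun _ => by
      rw [Nat.card_prod, card_Du hV, Nat.card_eq_fintype_card, Nat.card_eq_fintype_card, h1, h2, hn]
    Inc := T.Inc
    inc_symm := fun i j x y => T.Inc_symm i j x y
    k := fun _ _ => 4 * c * (w + 1)
    lam := fun _ _ => c * (w + 2)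
    k_symm := fun _ _ => rfl
    lam_symm := fun _ _ => rfl
    nontrivial := fun i j _ => by
      rw [hn]
      refine ⟨by positivity, ?_, ?_⟩ <;> nlinarith
    block := fun i j hij y => ?_
    pairs := fun i j hij x x' hx => ?_
    link := fun i j h hij hjh hhi => ⟨c * (w + 5), c * (w + 1), fun x y => ?_⟩ }, fun i j _ => ⟨rfl, rfl⟩⟩
  · have e1 := T.row hV j i hij.symm y
    have e2 : (Nat.card {x : Ω × Du V // T.Inc i j x y} : ℤ) = ∑ Z, T.N j i y Z := by
      rw [card_sum]
      refine Finset.sum_congr rfl fun Z _ => ?_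
      rw [T.N_symm]
      rfl
    rw [← e2, h1, h2] at e1
    push_cast at e1
    have e3 : (Nat.card {x : Ω × Du V // T.Inc i j x y} : ℤ) = 4 * c * (w + 1) := by linarith
    exact_mod_cast e3
  · have e1 := T.prod hV i j i hij hij.symm x x'
    have e2 : (Nat.card {y : Ω × Du V // T.Inc i j x y ∧ T.Inc i j x' y} : ℤ) =
        ∑ Z, T.N i j x Z * T.N j i Z x' := by
      rw [card_and]
      refine Finset.sum_congr rfl fun Z _ => ?_
      rw [T.N_symm j i]
      rfl
    have e4 := T.self i j hij hc x x' hx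
    rw [← e2, add_assoc, e4, h1, h2] at e1
    push_cast at e1
    have e3 : (Nat.card {y : Ω × Du V // T.Inc i j x y ∧ T.Inc i j x' y} : ℤ) = c * (w + 2) := by linarith
    exact_mod_cast e3
  · have e1 := T.prod hV i h j hhi.symm hjh.symm x y
    have e2 : (Nat.card {z : Ω × Du V // T.Inc i h x z ∧ T.Inc j h y z} : ℤ) =
        ∑ Z, T.N i h x Z * T.N h j Z y := by
      rw [card_and]
      refine Finset.sum_congr rfl fun Z _ => ?_
      rw [T.N_symm h j]
      rfl
    have e4 := T.key i j hij x y
    have e5 : be x.1 y.1 = 1 + if x.1 = y.1 then 1 else 0 := by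
      unfold be
      by_cases hxy : x.1 = y.1
      · rw [if_pos hxy, if_pos hxy]
        norm_num
      · rw [if_neg hxy, if_neg hxy]
        norm_num
    have e6 : (if x.1 = y.1 then (1 : ℤ) else 0) + T.ip i j x y = 4 * T.N i j x y - 1 := by
      rw [e4, e5]
      ring
    rw [← e2, add_assoc, e6, h1, h2] at e1
    push_cast at e1
    constructor
    · intro hI
      have e7 : T.N i j x y = 1 := by
        unfold N
        rw [if_pos hI]
      rw [e7] at e1
      have e3 : (Nat.card {z : Ω × Du V // T.Inc i h x z ∧ T.Inc j h y z} : ℤ) = c * (w + 5) := by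
        linarith
      exact_mod_cast e3
    · intro hI
      have e7 : T.N i j x y = 0 := by
        unfold N
        rw [if_neg hI]
      rw [e7] at e1
      have e3 : (Nat.card {z : Ω × Du V // T.Inc i h x z ∧ T.Inc j h y z} : ℤ) = c * (w + 1) := by
        linarith
      exact_mod_cast e3

end Sys

end Pool.Agent.Lib.MP_65f012_coD
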