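import Pool.Agent.Lib.MP_65f012_coD.Tower
import Pool.Agent.Lib.MP_65f012_coD.Five
import Pool.Agent.Lib.MP_65f012_coD.Hole
import Pool.Agent.Lib.MP_65f012_coD.Base

/-!
# The second family
-/

set_option autoImplicit false

namespace Pool.Agent.Lib.MP_65f012_coD

theorem room (t v k : ℕ) (ht : 2 ≤ t) (hv : 3 * v = 4 ^ (t + 1) * (4 ^ t - 1))
    (hk : 6 * k = 4 ^ t * (2 * 4 ^ t + 1)) : 2 * k < v := by
  obtain ⟨d, rfl⟩ : ∃ d, t = d + 2 := ⟨t - 2, by omega⟩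
  obtain ⟨q, hq⟩ : ∃ q, q = 4 ^ d := ⟨_, rfl⟩
  have hq1 : 1 ≤ q := by
    rw [hq]
    exact Nat.one_le_pow _ _ (by norm_num)
  have p2 : (4 : ℕ) ^ (d + 2) = 16 * q := by rw [hq]; ring
  have p3 : (4 : ℕ) ^ (d + 2 + 1) = 64 * q := by rw [hq]; ring
  rw [p2] at hk hv
  rw [p3] at hv
  obtain ⟨x, rfl⟩ : ∃ x, q = x + 1 := ⟨q - 1, by omega⟩
  have e1 : 16 * (x + 1) - 1 = 16 * x + 15 := by omega
  rw [e1] at hv
  nlinarith

/-- the family, with any choice of complements -/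
theorem main (t v k l : ℕ) (ht : 2 ≤ t) (hv : 3 * v = 4 ^ (t + 1) * (4 ^ t - 1))
    (hk : 6 * k = 4 ^ t * (2 * 4 ^ t + 1)) (hl : 12 * l = 4 ^ t * (4 ^ t + 2)) :
    (∀ e : ℕ, v ≠ 2 ^ e) ∧ 4 * (k - l) < v ∧
    ∀ c : Fin 3 → Fin 3 → Bool, (∀ i j, c i j = c j i) →
      ∃ L : MP_65f012_co.LinkedSystem 3 v, ∀ i j, i ≠ j →
        L.k i j = (if c i j = true then v - k else k) ∧
        L.lam i j = (if c i j = true then v + l - 2 * k else l) := by
  refine ⟨fun e => not_pow t v ht hv e, not_menon t v k l ht hv hk hl, fun c hc => ?_⟩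
  obtain ⟨L, hL⟩ := family nm nm_inj five (fun β c => rfl) hole hole_Θ base
    (by norm_num) t v k l ht hv hk hl
  have h1 := room t v k ht hv hk
  exact twisted v k l L hL (by omega) c hc

end Pool.Agent.Lib.MP_65f012_coD
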