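import Pool.Agent.Lib.MP_65f012_coD.GeoNext

/-!
# The next system
-/

set_option autoImplicit false
set_option linter.unusedSectionVars false

namespace Pool.Agent.Lib.MP_65f012_coD

open MP_65f012_coM (F4)

section

variable {μ : ℕ} {L V F R5 R10 : Type} [AddCommGroup V]
  (five : LocL μ R5 F4 Unit) (hole : LocS μ R10 P (Fin 2)) (G : Geo L V hole.Θ)
  (S : Sys μ F (L ⊕ Fin 2) V)

/-- the new flags -/
abbrev NF (L V F R5 R10 : Type) : Type := F ⊕ ((L × V × R5) ⊕ (V × R10))

/-- the old points -/
def emb : L ⊕ Fin 2 → (L ⊕ V) ⊕ Fin 2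
  | Sum.inl κ => Sum.inl (Sum.inl κ)
  | Sum.inr m => Sum.inr m

theorem emb_inj {x y : L ⊕ Fin 2} (h : (emb x : (L ⊕ V) ⊕ Fin 2) = emb y) : x = y := by
  rcases x with x | x <;> rcases y with y | y
  · exact congrArg Sum.inl (Sum.inl_injective (Sum.inl_injective h))
  · exact absurd h (by simp [emb])
  · exact absurd h (by simp [emb])
  · exact congrArg Sum.inr (Sum.inr_injective h)

/-- points of the new flags -/
def newP (s : Fin μ) : NF L V F R5 R10 → (L ⊕ V) ⊕ Fin 2
  | Sum.inl f => emb (S.p s f)
  | Sum.inr (Sum.inl (κ, v, r)) => match five.k s r with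
    | some _ => Sum.inl (Sum.inl κ)
    | none => Sum.inl (Sum.inr (v + G.j κ (five.b s r)))
  | Sum.inr (Sum.inr (v, r)) => match hole.k s r with
    | some m => Sum.inr m
    | none => Sum.inl (Sum.inr (v + G.ι (hole.b s r)))

/-- labels of the new flags -/
def newA (s : Fin μ) : NF L V F R5 R10 → V × F4
  | Sum.inl f => (S.a s f, 0)
  | Sum.inr (Sum.inl (κ, v, r)) => (G.j κ (five.α s r) + (match five.k s r with
    | some _ => G.G (Sum.inl κ) (five.β s r) v
    | none => 0), five.β s r)
  | Sum.inr (Sum.inr (v, r)) => (G.ι (hole.α s r) + (match hole.k s r with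
    | some m => G.G (Sum.inr m) (hole.β s r) v
    | none => 0), hole.β s r)

/-- signs of the new flags -/
def newS (s : Fin μ) : NF L V F R5 R10 → ZMod 2
  | Sum.inl f => S.h s f
  | Sum.inr (Sum.inl _) => 0
  | Sum.inr (Sum.inr (v, r)) => hole.σ s r (G.π v)


theorem old_new (s : Fin μ) (f : F) (x : V) : ¬ (newP five hole G S) s (Sum.inl f) = Sum.inl (Sum.inr x) := by
  show ¬ emb (S.p s f) = _
  rcases S.p s f with y | y <;> simp [emb]

theorem old_old (s : Fin μ) (f : F) (i : L ⊕ Fin 2) : (newP five hole G S) s (Sum.inl f) = emb i ↔ S.p s f = i := by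
  show emb (S.p s f) = _ ↔ _
  exact ⟨fun h => emb_inj h, fun h => by rw [h]⟩

theorem line_new (s : Fin μ) (κ : L) (v : V) (r : R5) (x : V) :
    (newP five hole G S) s (Sum.inr (Sum.inl (κ, v, r))) = Sum.inl (Sum.inr x) ↔
      five.k s r = none ∧ v + G.j κ (five.b s r) = x := by
  show (match five.k s r with
    | some _ => Sum.inl (Sum.inl κ)
    | none => Sum.inl (Sum.inr (v + G.j κ (five.b s r))) : (L ⊕ V) ⊕ Fin 2) = _ ↔ _
  cases hk : five.k s r <;> simp

theorem line_line (s : Fin μ) (κ κ' : L) (v : V) (r : R5) :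
    (newP five hole G S) s (Sum.inr (Sum.inl (κ, v, r))) = Sum.inl (Sum.inl κ') ↔ five.k s r = some () ∧ κ = κ' := by
  show (match five.k s r with
    | some _ => Sum.inl (Sum.inl κ)
    | none => Sum.inl (Sum.inr (v + G.j κ (five.b s r))) : (L ⊕ V) ⊕ Fin 2) = _ ↔ _
  cases hk : five.k s r <;> simp

theorem line_hole (s : Fin μ) (κ : L) (v : V) (r : R5) (m : Fin 2) :
    ¬ (newP five hole G S) s (Sum.inr (Sum.inl (κ, v, r))) = Sum.inr m := by
  show ¬ (match five.k s r with
    | some _ => Sum.inl (Sum.inl κ)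
    | none => Sum.inl (Sum.inr (v + G.j κ (five.b s r))) : (L ⊕ V) ⊕ Fin 2) = _
  cases hk : five.k s r <;> simp

theorem sp_new (s : Fin μ) (v : V) (r : R10) (x : V) :
    (newP five hole G S) s (Sum.inr (Sum.inr (v, r))) = Sum.inl (Sum.inr x) ↔
      hole.k s r = none ∧ v + G.ι (hole.b s r) = x := by
  show (match hole.k s r with
    | some m => Sum.inr m
    | none => Sum.inl (Sum.inr (v + G.ι (hole.b s r))) : (L ⊕ V) ⊕ Fin 2) = _ ↔ _
  cases hk : hole.k s r <;> simp

theorem sp_line (s : Fin μ) (κ : L) (v : V) (r : R10) :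
    ¬ (newP five hole G S) s (Sum.inr (Sum.inr (v, r))) = Sum.inl (Sum.inl κ) := by
  show ¬ (match hole.k s r with
    | some m => Sum.inr m
    | none => Sum.inl (Sum.inr (v + G.ι (hole.b s r))) : (L ⊕ V) ⊕ Fin 2) = _
  cases hk : hole.k s r <;> simp

theorem sp_hole (s : Fin μ) (v : V) (r : R10) (m : Fin 2) :
    (newP five hole G S) s (Sum.inr (Sum.inr (v, r))) = Sum.inr m ↔ hole.k s r = some m := by
  show (match hole.k s r with
    | some m => Sum.inr m
    | none => Sum.inl (Sum.inr (v + G.ι (hole.b s r))) : (L ⊕ V) ⊕ Fin 2) = _ ↔ _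
  cases hk : hole.k s r <;> simp

theorem a_old (s : Fin μ) (f : F) : (newA five hole G S) s (Sum.inl f) = (S.a s f, 0) := rfl

theorem a_line0 (s : Fin μ) (κ : L) (v : V) (r : R5) (h : five.k s r = none) :
    (newA five hole G S) s (Sum.inr (Sum.inl (κ, v, r))) = (G.j κ (five.α s r), five.β s r) := by
  show ((G.j κ (five.α s r) + (match five.k s r with
    | some _ => G.G (Sum.inl κ) (five.β s r) v
    | none => 0), five.β s r) : V × F4) = _
  rw [h]
  simp

theorem a_line1 (s : Fin μ) (κ : L) (v : V) (r : R5) (h : five.k s r = some ()) :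
    (newA five hole G S) s (Sum.inr (Sum.inl (κ, v, r))) =
      (G.j κ (five.α s r) + G.G (Sum.inl κ) (five.β s r) v, five.β s r) := by
  show ((G.j κ (five.α s r) + (match five.k s r with
    | some _ => G.G (Sum.inl κ) (five.β s r) v
    | none => 0), five.β s r) : V × F4) = _
  rw [h]

theorem a_sp0 (s : Fin μ) (v : V) (r : R10) (h : hole.k s r = none) :
    (newA five hole G S) s (Sum.inr (Sum.inr (v, r))) = (G.ι (hole.α s r), hole.β s r) := by
  show ((G.ι (hole.α s r) + (match hole.k s r with
    | some m => G.G (Sum.inr m) (hole.β s r) v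
    | none => 0), hole.β s r) : V × F4) = _
  rw [h]
  simp

theorem a_sp1 (s : Fin μ) (v : V) (r : R10) (m : Fin 2) (h : hole.k s r = some m) :
    (newA five hole G S) s (Sum.inr (Sum.inr (v, r))) =
      (G.ι (hole.α s r) + G.G (Sum.inr m) (hole.β s r) v, hole.β s r) := by
  show ((G.ι (hole.α s r) + (match hole.k s r with
    | some m => G.G (Sum.inr m) (hole.β s r) v
    | none => 0), hole.β s r) : V × F4) = _
  rw [h]

theorem new_ne0 (s : Fin μ) (f : NF L V F R5 R10) : (newA five hole G S) s f ≠ 0 := by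
  rcases f with f | ⟨κ, v, r⟩ | ⟨v, r⟩
  · intro h
    exact S.ne0 s f (congrArg Prod.fst h)
  · rcases hk : five.k s r with _ | ⟨⟨⟩⟩
    · rw [a_line0 five hole G S s κ v r hk]
      intro h
      exact five.nα s r hk (G.j_inj κ _ (congrArg Prod.fst h))
    · rw [a_line1 five hole G S s κ v r hk]
      intro h
      exact five.hβ s r (by rw [hk]; simp) (congrArg Prod.snd h)
  · rcases hk : hole.k s r with _ | m
    · rw [a_sp0 five hole G S s v r hk]
      intro h
      exact hole.ne0 s r hk (G.ι_inj _ (congrArg Prod.fst h)) (congrArg Prod.snd h)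
    · rw [a_sp1 five hole G S s v r m hk]
      intro h
      exact hole.hβ s r (by rw [hk]; simp) (congrArg Prod.snd h)

theorem G_cancel (i : L ⊕ Fin 2) (β : F4) (v w : V) (hβ : β ≠ 0) (h : G.G i β v = G.G i β w) : v = w := by
  have h2 : G.G i β (v - w) = 0 := by rw [map_sub, h, sub_self]
  exact sub_eq_zero.1 (G.G_inj i β _ hβ h2)

theorem j_cancel (κ : L) (c d : F4) (h : G.j κ c = G.j κ d) : c = d := by
  have h2 : G.j κ (c - d) = 0 := by rw [map_sub, h, sub_self]
  exact sub_eq_zero.1 (G.j_inj κ _ h2)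

theorem ι_cancel (x y : P) (h : G.ι x = G.ι y) : x = y := by
  have h2 : G.ι (x - y) = 0 := by rw [map_sub, h, sub_self]
  exact sub_eq_zero.1 (G.ι_inj _ h2)

theorem old_inj (s : Fin μ) (f : F) (g : (L × V × R5) ⊕ (V × R10)) (h1 : (newP five hole G S) s (Sum.inl f) = (newP five hole G S) s (Sum.inr g))
    (h2 : (newA five hole G S) s (Sum.inl f) = (newA five hole G S) s (Sum.inr g)) : False := by
  rcases g with ⟨κ, v, r⟩ | ⟨v, r⟩
  · rcases hk : five.k s r with _ | ⟨⟨⟩⟩
    · exact old_new five hole G S s f _ (h1.trans ((line_new five hole G S s κ v r _).2 ⟨hk, rfl⟩))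
    · rw [a_line1 five hole G S s κ v r hk] at h2
      exact five.hβ s r (by rw [hk]; simp) (congrArg Prod.snd h2).symm
  · rcases hk : hole.k s r with _ | m
    · exact old_new five hole G S s f _ (h1.trans ((sp_new five hole G S s v r _).2 ⟨hk, rfl⟩))
    · rw [a_sp1 five hole G S s v r m hk] at h2
      exact hole.hβ s r (by rw [hk]; simp) (congrArg Prod.snd h2).symm

theorem line_sp_inj (s : Fin μ) (κ : L) (v : V) (r : R5) (v' : V) (r' : R10)
    (h1 : (newP five hole G S) s (Sum.inr (Sum.inl (κ, v, r))) = (newP five hole G S) s (Sum.inr (Sum.inr (v', r'))))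
    (h2 : (newA five hole G S) s (Sum.inr (Sum.inl (κ, v, r))) = (newA five hole G S) s (Sum.inr (Sum.inr (v', r')))) : False := by
  rcases hk : five.k s r with _ | ⟨⟨⟩⟩
  · rcases hk' : hole.k s r' with _ | m
    · rw [a_line0 five hole G S s κ v r hk, a_sp0 five hole G S s v' r' hk'] at h2
      exact five.nα s r hk (G.ij κ _ _ (congrArg Prod.fst h2))
    · exact absurd (h1.trans ((sp_hole five hole G S s v' r' m).2 hk')) (line_hole five hole G S s κ v r m)
  · exact absurd (h1.symm.trans ((line_line five hole G S s κ κ v r).2 ⟨hk, rfl⟩))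
      (sp_line five hole G S s κ v' r')

theorem new_inj (s : Fin μ) (f g : NF L V F R5 R10) (h1 : (newP five hole G S) s f = (newP five hole G S) s g) (h2 : (newA five hole G S) s f = (newA five hole G S) s g) :
    f = g := by
  rcases f with f | ⟨κ, v, r⟩ | ⟨v, r⟩
  · rcases g with g | g
    · have h3 := (old_old five hole G S s f (S.p s g)).1 h1
      exact congrArg Sum.inl (S.inj s f g h3 (congrArg Prod.fst h2))
    · exact (old_inj five hole G S s f g h1 h2).elim
  · rcases g with g | ⟨κ', v', r'⟩ | ⟨v', r'⟩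
    · exact (old_inj five hole G S s g _ h1.symm h2.symm).elim
    · rcases hk : five.k s r with _ | ⟨⟨⟩⟩
      · have h3 := h1.symm.trans ((line_new five hole G S s κ v r _).2 ⟨hk, rfl⟩)
        obtain ⟨hk', h4⟩ := (line_new five hole G S s κ' v' r' _).1 h3
        rw [a_line0 five hole G S s κ v r hk, a_line0 five hole G S s κ' v' r' hk'] at h2
        have h5 : G.j κ (five.α s r) = G.j κ' (five.α s r') := congrArg Prod.fst h2
        have h6 : five.β s r = five.β s r' := congrArg Prod.snd h2
        have h7 := G.jj κ κ' _ _ h5 (five.nα s r hk)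
        subst h7
        have h8 := five.inj s r r' hk hk' (j_cancel hole G κ _ _ h5) h6
        subst h8
        have h9 : v' = v := add_right_cancel h4
        subst h9
        rfl
      · have h3 := h1.symm.trans ((line_line five hole G S s κ κ v r).2 ⟨hk, rfl⟩)
        obtain ⟨hk', h4⟩ := (line_line five hole G S s κ' κ v' r').1 h3
        subst h4
        rw [a_line1 five hole G S s κ' v r hk, a_line1 five hole G S s κ' v' r' hk'] at h2
        have h6 : five.β s r = five.β s r' := congrArg Prod.snd h2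
        have h8 := five.injH s r r' (by rw [hk]; simp) (hk.trans hk'.symm) h6
        subst h8
        have h5 : G.j κ' (five.α s r) + G.G (Sum.inl κ') (five.β s r) v =
          G.j κ' (five.α s r) + G.G (Sum.inl κ') (five.β s r) v' := congrArg Prod.fst h2
        have h9 := G_cancel hole G _ _ _ _ (five.hβ s r (by rw [hk]; simp)) (add_left_cancel h5)
        subst h9
        rfl
    · exact (line_sp_inj five hole G S s κ v r v' r' h1 h2).elim
  · rcases g with g | ⟨κ', v', r'⟩ | ⟨v', r'⟩
    · exact (old_inj five hole G S s g _ h1.symm h2.symm).elim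
    · exact (line_sp_inj five hole G S s κ' v' r' v r h1.symm h2.symm).elim
    · rcases hk : hole.k s r with _ | m
      · have h3 := h1.symm.trans ((sp_new five hole G S s v r _).2 ⟨hk, rfl⟩)
        obtain ⟨hk', h4⟩ := (sp_new five hole G S s v' r' _).1 h3
        rw [a_sp0 five hole G S s v r hk, a_sp0 five hole G S s v' r' hk'] at h2
        have h5 : G.ι (hole.α s r) = G.ι (hole.α s r') := congrArg Prod.fst h2
        have h6 : hole.β s r = hole.β s r' := congrArg Prod.snd h2
        have h8 := hole.inj s r r' hk hk' (ι_cancel hole G _ _ h5) h6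
        subst h8
        have h9 : v' = v := add_right_cancel h4
        subst h9
        rfl
      · have h3 := h1.symm.trans ((sp_hole five hole G S s v r m).2 hk)
        have hk' := (sp_hole five hole G S s v' r' m).1 h3
        rw [a_sp1 five hole G S s v r m hk, a_sp1 five hole G S s v' r' m hk'] at h2
        have h6 : hole.β s r = hole.β s r' := congrArg Prod.snd h2
        have h8 := hole.injH s r r' (by rw [hk]; simp) (hk.trans hk'.symm) h6
        subst h8
        have h5 : G.ι (hole.α s r) + G.G (Sum.inr m) (hole.β s r) v =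
          G.ι (hole.α s r) + G.G (Sum.inr m) (hole.β s r) v' := congrArg Prod.fst h2
        have h9 := G_cancel hole G _ _ _ _ (hole.hβ s r (by rw [hk]; simp)) (add_left_cancel h5)
        subst h9
        rfl

end

end Pool.Agent.Lib.MP_65f012_coD
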