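import Pool.Agent.Lib.MP_65f012_coD.SysNext

/-!
# The next system: the pairs
-/

set_option autoImplicit false
set_option linter.unusedSectionVars false

namespace Pool.Agent.Lib.MP_65f012_coD

open MP_65f012_coM (F4)

theorem sum_zero {A B : Type} [AddCommGroup A] [AddCommGroup B] {n : ℕ} (f : Fin n → A × B)
    (u : Fin n → A) (w : Fin n → B) (h : ∀ m, f m = (u m, w m)) (hu : ∑ m, u m = 0)
    (hw : ∑ m, w m = 0) : ∑ m, f m = 0 := by
  simp only [h]
  refine Prod.ext ?_ ?_
  · rw [Prod.fst_sum]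
    exact hu
  · rw [Prod.snd_sum]
    exact hw

section

variable {μ : ℕ} {L V F R5 R10 : Type} [AddCommGroup V]
  (five : LocL μ R5 F4 Unit) (hole : LocS μ R10 P (Fin 2)) (G : Geo L V hole.Θ)
  (S : Sys μ F (L ⊕ Fin 2) V)


/-- two new points on a translate of `P` -/
theorem pair_sp (s t : Fin μ) (hst : s ≠ t) (x y : V) (d : P) (hd : d ≠ 0) (hxy : y - x = G.ι d) :
    ∃ g : Fin 3 → NF L V F R5 R10, Function.Injective g ∧
    (∀ f, ((newP five hole G S) s f = Sum.inl (Sum.inr x) ∧ (newP five hole G S) t f = Sum.inl (Sum.inr y)) ↔ ∃ m, g m = f) ∧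
    ∑ m, (newA five hole G S) s (g m) = 0 ∧ ∑ m, ((newS hole G S) s (g m) + (newS hole G S) t (g m)) = 0 := by
  obtain ⟨g0, hinj, hiff, hα, hβ, hσ⟩ := hole.aff s t d hst hd
  have hk : ∀ m, hole.k s (g0 m) = none ∧ hole.k t (g0 m) = none ∧
      hole.b t (g0 m) = hole.b s (g0 m) + d := fun m => (hiff (g0 m)).2 ⟨m, rfl⟩
  refine ⟨fun m => Sum.inr (Sum.inr (x - G.ι (hole.b s (g0 m)), g0 m)), ?_, ?_, ?_, ?_⟩
  · intro m m' h
    exact hinj (congrArg Prod.snd (Sum.inr_injective (Sum.inr_injective h)))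
  · intro f
    constructor
    · rintro ⟨h1, h2⟩
      rcases f with f | ⟨κ, v, r⟩ | ⟨v, r⟩
      · exact (old_new five hole G S s f x h1).elim
      · exfalso
        obtain ⟨_, e1⟩ := (line_new five hole G S s κ v r x).1 h1
        obtain ⟨_, e2⟩ := (line_new five hole G S t κ v r y).1 h2
        have e3 : G.j κ (five.b t r - five.b s r) = G.ι d := by
          rw [← hxy, ← e1, ← e2, map_sub]
          abel
        have e4 := G.ij κ _ _ e3
        rw [e4, map_zero] at e3
        exact hd (G.ι_inj d e3.symm)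
      · obtain ⟨k1, e1⟩ := (sp_new five hole G S s v r x).1 h1
        obtain ⟨k2, e2⟩ := (sp_new five hole G S t v r y).1 h2
        have e3 : G.ι (hole.b t r) = G.ι (hole.b s r + d) := by
          rw [map_add, ← hxy, ← e1, ← e2]
          abel
        obtain ⟨m, hm⟩ := (hiff r).1 ⟨k1, k2, ι_cancel hole G _ _ e3⟩
        refine ⟨m, ?_⟩
        subst hm
        simp only [← e1, add_sub_cancel_right]
    · rintro ⟨m, rfl⟩
      refine ⟨(sp_new five hole G S s _ _ x).2 ⟨(hk m).1, sub_add_cancel _ _⟩,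
        (sp_new five hole G S t _ _ y).2 ⟨(hk m).2.1, ?_⟩⟩
      rw [(hk m).2.2, map_add, ← hxy]
      abel
  · refine sum_zero _ (fun m => G.ι (hole.α s (g0 m))) (fun m => hole.β s (g0 m))
      (fun m => a_sp0 five hole G S s _ _ (hk m).1) ?_ hβ
    rw [← map_sum, hα, map_zero]
  · have h := hσ (G.π x)
    rw [← h]
    refine Finset.sum_congr rfl fun m _ => ?_
    show hole.σ s (g0 m) (G.π (x - G.ι (hole.b s (g0 m)))) +
      hole.σ t (g0 m) (G.π (x - G.ι (hole.b s (g0 m)))) = _
    rw [map_sub, G.π_ι]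

/-- two new points on a line -/
theorem pair_line (s t : Fin μ) (hst : s ≠ t) (x y : V) (κ : L) (d : F4) (hd : d ≠ 0)
    (hxy : y - x = G.j κ d) :
    ∃ g : Fin 3 → NF L V F R5 R10, Function.Injective g ∧
    (∀ f, ((newP five hole G S) s f = Sum.inl (Sum.inr x) ∧ (newP five hole G S) t f = Sum.inl (Sum.inr y)) ↔ ∃ m, g m = f) ∧
    ∑ m, (newA five hole G S) s (g m) = 0 ∧ ∑ m, ((newS hole G S) s (g m) + (newS hole G S) t (g m)) = 0 := by
  obtain ⟨g0, hinj, hiff, hα, hβ, _⟩ := five.aff s t d hst hd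
  have hk : ∀ m, five.k s (g0 m) = none ∧ five.k t (g0 m) = none ∧
      five.b t (g0 m) = five.b s (g0 m) + d := fun m => (hiff (g0 m)).2 ⟨m, rfl⟩
  refine ⟨fun m => Sum.inr (Sum.inl (κ, x - G.j κ (five.b s (g0 m)), g0 m)), ?_, ?_, ?_, ?_⟩
  · intro m m' h
    exact hinj (congrArg (fun w => w.2.2) (Sum.inl_injective (Sum.inr_injective h)))
  · intro f
    constructor
    · rintro ⟨h1, h2⟩
      rcases f with f | ⟨κ', v, r⟩ | ⟨v, r⟩
      · exact (old_new five hole G S s f x h1).elim
      · obtain ⟨k1, e1⟩ := (line_new five hole G S s κ' v r x).1 h1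
        obtain ⟨k2, e2⟩ := (line_new five hole G S t κ' v r y).1 h2
        have e3 : G.j κ' (five.b t r - five.b s r) = G.j κ d := by
          rw [← hxy, ← e1, ← e2, map_sub]
          abel
        have e4 : κ = κ' := G.jj κ κ' d _ e3.symm hd
        subst e4
        have e5 : five.b t r = five.b s r + d := by
          have e6 := j_cancel hole G κ _ _ e3
          rw [← e6]
          abel
        obtain ⟨m, hm⟩ := (hiff r).1 ⟨k1, k2, e5⟩
        refine ⟨m, ?_⟩
        subst hm
        simp only [← e1, add_sub_cancel_right]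
      · exfalso
        obtain ⟨_, e1⟩ := (sp_new five hole G S s v r x).1 h1
        obtain ⟨_, e2⟩ := (sp_new five hole G S t v r y).1 h2
        have e3 : G.j κ d = G.ι (hole.b t r - hole.b s r) := by
          rw [← hxy, ← e1, ← e2, map_sub]
          abel
        exact hd (G.ij κ _ _ e3)
    · rintro ⟨m, rfl⟩
      refine ⟨(line_new five hole G S s κ _ _ x).2 ⟨(hk m).1, sub_add_cancel _ _⟩,
        (line_new five hole G S t κ _ _ y).2 ⟨(hk m).2.1, ?_⟩⟩
      rw [(hk m).2.2, map_add, ← hxy]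
      abel
  · refine sum_zero _ (fun m => G.j κ (five.α s (g0 m))) (fun m => five.β s (g0 m))
      (fun m => a_line0 five hole G S s κ _ _ (hk m).1) ?_ hβ
    rw [← map_sum, hα, map_zero]
  · show ∑ _m : Fin 3, ((0 : ZMod 2) + 0) = 0
    simp

/-- a new point and a line -/
theorem pair_nl (hΘ : ∀ β c, five.Θ () β c = β * c) (s t : Fin μ) (hst : s ≠ t) (x : V) (κ : L) :
    ∃ g : Fin 3 → NF L V F R5 R10, Function.Injective g ∧
    (∀ f, ((newP five hole G S) s f = Sum.inl (Sum.inr x) ∧ (newP five hole G S) t f = Sum.inl (Sum.inl κ)) ↔ ∃ m, g m = f) ∧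
    ∑ m, (newA five hole G S) s (g m) = 0 ∧ ∑ m, (newA five hole G S) t (g m) = 0 ∧ ∑ m, ((newS hole G S) s (g m) + (newS hole G S) t (g m)) = 0 := by
  obtain ⟨g0, hinj, hiff, hα, hβ, hα', hβ', _⟩ := five.hole s t () hst
  have hk : ∀ m, five.k s (g0 m) = none ∧ five.k t (g0 m) = some () :=
    fun m => (hiff (g0 m)).2 ⟨m, rfl⟩
  refine ⟨fun m => Sum.inr (Sum.inl (κ, x - G.j κ (five.b s (g0 m)), g0 m)), ?_, ?_, ?_, ?_, ?_⟩
  · intro m m' h
    exact hinj (congrArg (fun w => w.2.2) (Sum.inl_injective (Sum.inr_injective h)))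
  · intro f
    constructor
    · rintro ⟨h1, h2⟩
      rcases f with f | ⟨κ', v, r⟩ | ⟨v, r⟩
      · exact (old_new five hole G S s f x h1).elim
      · obtain ⟨k1, e1⟩ := (line_new five hole G S s κ' v r x).1 h1
        obtain ⟨k2, e2⟩ := (line_line five hole G S t κ' κ v r).1 h2
        subst e2
        obtain ⟨m, hm⟩ := (hiff r).1 ⟨k1, k2⟩
        refine ⟨m, ?_⟩
        subst hm
        simp only [← e1, add_sub_cancel_right]
      · exact (sp_line five hole G S t κ v r h2).elim
    · rintro ⟨m, rfl⟩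
      exact ⟨(line_new five hole G S s κ _ _ x).2 ⟨(hk m).1, sub_add_cancel _ _⟩,
        (line_line five hole G S t κ κ _ _).2 ⟨(hk m).2, rfl⟩⟩
  · refine sum_zero _ (fun m => G.j κ (five.α s (g0 m))) (fun m => five.β s (g0 m))
      (fun m => a_line0 five hole G S s κ _ _ (hk m).1) ?_ hβ
    rw [← map_sum, hα, map_zero]
  · refine sum_zero _ (fun m => G.j κ (five.α t (g0 m)) +
      G.G (Sum.inl κ) (five.β t (g0 m)) (x - G.j κ (five.b s (g0 m)))) (fun m => five.β t (g0 m))
      (fun m => a_line1 five hole G S t κ _ _ (hk m).2) ?_ hβ'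
    have e1 : ∀ m, G.j κ (five.α t (g0 m)) +
        G.G (Sum.inl κ) (five.β t (g0 m)) (x - G.j κ (five.b s (g0 m))) =
        G.j κ (five.α t (g0 m) - five.Θ () (five.β t (g0 m)) (five.b s (g0 m))) +
          G.G (Sum.inl κ) (five.β t (g0 m)) x := by
      intro m
      rw [map_sub, map_sub, G.G_line, hΘ]
      abel
    simp only [e1]
    rw [Finset.sum_add_distrib, ← map_sum, hα', map_zero, zero_add, ← AddMonoidHom.finsetSum_apply,
      ← map_sum, hβ', map_zero, AddMonoidHom.zero_apply]
  · show ∑ _m : Fin 3, ((0 : ZMod 2) + 0) = 0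
    simp

/-- a new point and a special point -/
theorem pair_nh (s t : Fin μ) (hst : s ≠ t) (x : V) (η : Fin 2) :
    ∃ g : Fin 3 → NF L V F R5 R10, Function.Injective g ∧
    (∀ f, ((newP five hole G S) s f = Sum.inl (Sum.inr x) ∧ (newP five hole G S) t f = Sum.inr η) ↔ ∃ m, g m = f) ∧
    ∑ m, (newA five hole G S) s (g m) = 0 ∧ ∑ m, (newA five hole G S) t (g m) = 0 ∧ ∑ m, ((newS hole G S) s (g m) + (newS hole G S) t (g m)) = 0 := by
  obtain ⟨g0, hinj, hiff, hα, hβ, hα', hβ', hσ⟩ := hole.hole s t η hst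
  have hk : ∀ m, hole.k s (g0 m) = none ∧ hole.k t (g0 m) = some η :=
    fun m => (hiff (g0 m)).2 ⟨m, rfl⟩
  refine ⟨fun m => Sum.inr (Sum.inr (x - G.ι (hole.b s (g0 m)), g0 m)), ?_, ?_, ?_, ?_, ?_⟩
  · intro m m' h
    exact hinj (congrArg Prod.snd (Sum.inr_injective (Sum.inr_injective h)))
  · intro f
    constructor
    · rintro ⟨h1, h2⟩
      rcases f with f | ⟨κ, v, r⟩ | ⟨v, r⟩
      · exact (old_new five hole G S s f x h1).elim
      · exact (line_hole five hole G S t κ v r η h2).elim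
      · obtain ⟨k1, e1⟩ := (sp_new five hole G S s v r x).1 h1
        have k2 := (sp_hole five hole G S t v r η).1 h2
        obtain ⟨m, hm⟩ := (hiff r).1 ⟨k1, k2⟩
        refine ⟨m, ?_⟩
        subst hm
        simp only [← e1, add_sub_cancel_right]
    · rintro ⟨m, rfl⟩
      exact ⟨(sp_new five hole G S s _ _ x).2 ⟨(hk m).1, sub_add_cancel _ _⟩,
        (sp_hole five hole G S t _ _ η).2 (hk m).2⟩
  · refine sum_zero _ (fun m => G.ι (hole.α s (g0 m))) (fun m => hole.β s (g0 m))
      (fun m => a_sp0 five hole G S s _ _ (hk m).1) ?_ hβ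
    rw [← map_sum, hα, map_zero]
  · refine sum_zero _ (fun m => G.ι (hole.α t (g0 m)) +
      G.G (Sum.inr η) (hole.β t (g0 m)) (x - G.ι (hole.b s (g0 m)))) (fun m => hole.β t (g0 m))
      (fun m => a_sp1 five hole G S t _ _ η (hk m).2) ?_ hβ'
    have e1 : ∀ m, G.ι (hole.α t (g0 m)) +
        G.G (Sum.inr η) (hole.β t (g0 m)) (x - G.ι (hole.b s (g0 m))) =
        G.ι (hole.α t (g0 m) - hole.Θ η (hole.β t (g0 m)) (hole.b s (g0 m))) +
          G.G (Sum.inr η) (hole.β t (g0 m)) x := by
      intro m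
      rw [map_sub, map_sub, G.G_hole]
      abel
    simp only [e1]
    rw [Finset.sum_add_distrib, ← map_sum, hα', map_zero, zero_add, ← AddMonoidHom.finsetSum_apply,
      ← map_sum, hβ', map_zero, AddMonoidHom.zero_apply]
  · have h := hσ (G.π x)
    rw [← h]
    refine Finset.sum_congr rfl fun m _ => ?_
    show hole.σ s (g0 m) (G.π (x - G.ι (hole.b s (g0 m)))) +
      hole.σ t (g0 m) (G.π (x - G.ι (hole.b s (g0 m)))) = _
    rw [map_sub, G.π_ι]

/-- new flags contain at most one old point -/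
theorem one_old (s t : Fin μ) (hst : s ≠ t) (f : (L × V × R5) ⊕ (V × R10)) (i j : L ⊕ Fin 2)
    (h1 : (newP five hole G S) s (Sum.inr f) = emb i) (h2 : (newP five hole G S) t (Sum.inr f) = emb j) : False := by
  rcases f with ⟨κ, v, r⟩ | ⟨v, r⟩
  · rcases i with i | i
    · rcases j with j | j
      · have k1 := ((line_line five hole G S s κ i v r).1 h1).1
        have k2 := ((line_line five hole G S t κ j v r).1 h2).1
        have := five.one s t r hst (by rw [k1]; simp)
        rw [k2] at this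
        exact absurd this (by simp)
      · exact line_hole five hole G S t κ v r j h2
    · exact line_hole five hole G S s κ v r i h1
  · rcases i with i | i
    · exact sp_line five hole G S s i v r h1
    · rcases j with j | j
      · exact sp_line five hole G S t j v r h2
      · have k1 := (sp_hole five hole G S s v r i).1 h1
        have k2 := (sp_hole five hole G S t v r j).1 h2
        have := hole.one s t r hst (by rw [k1]; simp)
        rw [k2] at this
        exact absurd this (by simp)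

/-- two old points -/
theorem pair_old (s t : Fin μ) (hst : s ≠ t) (n : ℕ) (i j : L ⊕ Fin 2) (e : ZMod 2)
    (h : ∃ g : Fin n → F, Function.Injective g ∧ (∀ f, (S.p s f = i ∧ S.p t f = j) ↔ ∃ m, g m = f) ∧
      ∑ m, S.a s (g m) = 0 ∧ ∑ m, (S.h s (g m) + S.h t (g m)) = e) :
    ∃ g : Fin n → NF L V F R5 R10, Function.Injective g ∧
    (∀ f, ((newP five hole G S) s f = emb i ∧ (newP five hole G S) t f = emb j) ↔ ∃ m, g m = f) ∧
    ∑ m, (newA five hole G S) s (g m) = 0 ∧ ∑ m, ((newS hole G S) s (g m) + (newS hole G S) t (g m)) = e := by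
  obtain ⟨g0, hinj, hiff, ha, hh⟩ := h
  refine ⟨fun m => Sum.inl (g0 m), ?_, ?_, ?_, ?_⟩
  · intro m m' h
    exact hinj (Sum.inl_injective h)
  · intro f
    constructor
    · rintro ⟨h1, h2⟩
      rcases f with f | f
      · obtain ⟨m, hm⟩ := (hiff f).1 ⟨(old_old five hole G S s f i).1 h1,
          (old_old five hole G S t f j).1 h2⟩
        exact ⟨m, congrArg Sum.inl hm⟩
      · exact (one_old five hole G S s t hst f i j h1 h2).elim
    · rintro ⟨m, rfl⟩
      obtain ⟨e1, e2⟩ := (hiff (g0 m)).2 ⟨m, rfl⟩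
      exact ⟨(old_old five hole G S s _ i).2 e1, (old_old five hole G S t _ j).2 e2⟩
  · exact sum_zero _ (fun m => S.a s (g0 m)) (fun _ => 0) (fun m => rfl) ha (by simp)
  · exact hh

/-- a new point and the same new point -/
theorem pair_nn (s t : Fin μ) (hst : s ≠ t) (x : V) :
    ∃ g : Fin 4 → NF L V F R5 R10, Function.Injective g ∧
    (∀ f, ((newP five hole G S) s f = Sum.inl (Sum.inr x) ∧ (newP five hole G S) t f = Sum.inl (Sum.inr x)) ↔ ∃ m, g m = f) ∧
    ∑ m, (newA five hole G S) s (g m) = 0 ∧ ∑ m, ((newS hole G S) s (g m) + (newS hole G S) t (g m)) = 1 := by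
  obtain ⟨g0, hinj, hiff, hα, hβ, hσ⟩ := hole.diag s t hst
  have hk : ∀ m, hole.k s (g0 m) = none ∧ hole.k t (g0 m) = none ∧
      hole.b t (g0 m) = hole.b s (g0 m) := fun m => (hiff (g0 m)).2 ⟨m, rfl⟩
  refine ⟨fun m => Sum.inr (Sum.inr (x - G.ι (hole.b s (g0 m)), g0 m)), ?_, ?_, ?_, ?_⟩
  · intro m m' h
    exact hinj (congrArg Prod.snd (Sum.inr_injective (Sum.inr_injective h)))
  · intro f
    constructor
    · rintro ⟨h1, h2⟩
      rcases f with f | ⟨κ, v, r⟩ | ⟨v, r⟩
      · exact (old_new five hole G S s f x h1).elim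
      · exfalso
        obtain ⟨k1, e1⟩ := (line_new five hole G S s κ v r x).1 h1
        obtain ⟨k2, e2⟩ := (line_new five hole G S t κ v r x).1 h2
        have e3 : G.j κ (five.b t r) = G.j κ (five.b s r) := add_left_cancel (e2.trans e1.symm)
        exact five.ne s t r hst k1 k2 (j_cancel hole G κ _ _ e3)
      · obtain ⟨k1, e1⟩ := (sp_new five hole G S s v r x).1 h1
        obtain ⟨k2, e2⟩ := (sp_new five hole G S t v r x).1 h2
        have e3 : G.ι (hole.b t r) = G.ι (hole.b s r) := add_left_cancel (e2.trans e1.symm)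
        obtain ⟨m, hm⟩ := (hiff r).1 ⟨k1, k2, ι_cancel hole G _ _ e3⟩
        refine ⟨m, ?_⟩
        subst hm
        simp only [← e1, add_sub_cancel_right]
    · rintro ⟨m, rfl⟩
      refine ⟨(sp_new five hole G S s _ _ x).2 ⟨(hk m).1, sub_add_cancel _ _⟩,
        (sp_new five hole G S t _ _ x).2 ⟨(hk m).2.1, ?_⟩⟩
      rw [(hk m).2.2, sub_add_cancel]
  · refine sum_zero _ (fun m => G.ι (hole.α s (g0 m))) (fun m => hole.β s (g0 m))
      (fun m => a_sp0 five hole G S s _ _ (hk m).1) ?_ hβ
    rw [← map_sum, hα, map_zero]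
  · have h := hσ (G.π x)
    rw [← h]
    refine Finset.sum_congr rfl fun m _ => ?_
    show hole.σ s (g0 m) (G.π (x - G.ι (hole.b s (g0 m)))) +
      hole.σ t (g0 m) (G.π (x - G.ι (hole.b s (g0 m)))) = _
    rw [map_sub, G.π_ι]

/-- the next system -/
def Sys.next (hΘ : ∀ β c, five.Θ () β c = β * c) :
    Sys μ (NF L V F R5 R10) ((L ⊕ V) ⊕ Fin 2) (V × F4) where
  p := fun s => (newP five hole G S) s
  a := fun s => (newA five hole G S) s
  h := fun s => (newS hole G S) s
  ne0 := fun s f => new_ne0 five hole G S s f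
  inj := fun s f g => new_inj five hole G S s f g
  off := by
    intro s t i j hst hij
    rcases i with (i | x) | i
    · rcases j with (j | y) | j
      · exact pair_old five hole G S s t hst 3 (Sum.inl i) (Sum.inl j) 0
          (S.off s t _ _ hst fun h => hij (by rw [Sum.inl_injective h]))
      · obtain ⟨g, h1, h2, _, h4, h5⟩ := pair_nl five hole G S hΘ t s hst.symm y i
        refine ⟨g, h1, fun f => and_comm.trans (h2 f), h4, ?_⟩
        rw [← h5]
        exact Finset.sum_congr rfl fun m _ => add_comm _ _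
      · exact pair_old five hole G S s t hst 3 (Sum.inl i) (Sum.inr j) 0
          (S.off s t _ _ hst fun h => by simp at h)
    · rcases j with (j | y) | j
      · obtain ⟨g, h1, h2, h3, _, h5⟩ := pair_nl five hole G S hΘ s t hst x j
        exact ⟨g, h1, h2, h3, h5⟩
      · have hxy : y - x ≠ 0 := fun h => hij (by rw [sub_eq_zero.1 h])
        rcases G.cover _ hxy with ⟨d, hd⟩ | ⟨κ, d, hd⟩
        · exact pair_sp five hole G S s t hst x y d
            (fun h => hxy (by rw [hd, h, map_zero])) hd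
        · exact pair_line five hole G S s t hst x y κ d
            (fun h => hxy (by rw [hd, h, map_zero])) hd
      · obtain ⟨g, h1, h2, h3, _, h5⟩ := pair_nh five hole G S s t hst x j
        exact ⟨g, h1, h2, h3, h5⟩
    · rcases j with (j | y) | j
      · exact pair_old five hole G S s t hst 3 (Sum.inr i) (Sum.inl j) 0
          (S.off s t _ _ hst fun h => by simp at h)
      · obtain ⟨g, h1, h2, _, h4, h5⟩ := pair_nh five hole G S t s hst.symm y i
        refine ⟨g, h1, fun f => and_comm.trans (h2 f), h4, ?_⟩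
        rw [← h5]
        exact Finset.sum_congr rfl fun m _ => add_comm _ _
      · exact pair_old five hole G S s t hst 3 (Sum.inr i) (Sum.inr j) 0
          (S.off s t _ _ hst fun h => hij (by rw [Sum.inr_injective h]))
  diag := by
    intro s t i hst
    rcases i with (i | x) | i
    · exact pair_old five hole G S s t hst 4 (Sum.inl i) (Sum.inl i) 1 (S.diag s t _ hst)
    · exact pair_nn five hole G S s t hst x
    · exact pair_old five hole G S s t hst 4 (Sum.inr i) (Sum.inr i) 1 (S.diag s t _ hst)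

end

end Pool.Agent.Lib.MP_65f012_coD
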