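import Pool.Agent.Lib.MP_65f012_coD.SysStep
import Pool.Agent.Lib.MP_65f012_coD.Link
import Pool.Agent.Lib.MP_65f012_coM.Twist

/-!
# The tower of systems
-/

set_option autoImplicit false
set_option linter.unusedSectionVars false

namespace Pool.Agent.Lib.MP_65f012_coD

open MP_65f012_coM (F4)

/-- renaming the points -/
def Sys.map {μ : ℕ} {F Ω Ω' V : Type} [AddCommGroup V] (S : Sys μ F Ω V) (e : Ω ≃ Ω') : Sys μ F Ω' V where
  p := fun s f => e (S.p s f)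
  a := S.a
  h := S.h
  ne0 := S.ne0
  inj := fun s f g h1 h2 => S.inj s f g (e.injective h1) h2
  off := by
    intro s t i j hst hij
    obtain ⟨g, h1, h2, h3, h4⟩ := S.off s t (e.symm i) (e.symm j) hst
      (fun h => hij (e.symm.injective h))
    refine ⟨g, h1, fun f => ?_, h3, h4⟩
    rw [← h2 f, Equiv.eq_symm_apply, Equiv.eq_symm_apply]
  diag := by
    intro s t i hst
    obtain ⟨g, h1, h2, h3, h4⟩ := S.diag s t (e.symm i) hst
    refine ⟨g, h1, fun f => ?_, h3, h4⟩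
    rw [← h2 f, Equiv.eq_symm_apply, Equiv.eq_symm_apply]

theorem tower {μ : ℕ} {R5 R10 F0 : Type} [Fintype R5] [Fintype R10] [Fintype F0]
    (nm : Fin 2 → F4 →+ P →+ P) (nm_inj : ∀ m β x, β ≠ 0 → nm m β x = 0 → x = 0)
    (five : LocL μ R5 F4 Unit) (hΘ : ∀ β c, five.Θ () β c = β * c)
    (hole : LocS μ R10 P (Fin 2)) (hh : hole.Θ = fun m β x => nm m β x)
    (base : Sys μ F0 (Fin 10) (P × F4)) (d : ℕ) :
    ∃ (F L V : Type) (_ : Fintype F) (_ : Fintype L) (_ : Fintype V) (_ : AddCommGroup V)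
      (_ : Geo L V hole.Θ) (_ : Sys μ F (L ⊕ Fin 2) V), (∀ v : V, v + v = 0) ∧
      Fintype.card V = 2 * 4 ^ (d + 2) ∧ 3 * Fintype.card (L ⊕ Fin 2) + 2 = Fintype.card V := by
  induction d with
  | zero =>
    have e : Fin 10 ≃ (Empty ⊕ P) ⊕ Fin 2 := by
      refine Fintype.equivOfCardEq ?_
      rw [Fintype.card_sum, Fintype.card_sum, Fintype.card_fin, Fintype.card_fin, Fintype.card_empty,
        Fintype.card_prod, Fintype.card_prod, ZMod.card]
    have G : Geo (Empty ⊕ P) (P × F4) hole.Θ := by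
      rw [hh]
      exact (geo0 nm nm_inj).next
    refine ⟨F0, Empty ⊕ P, P × F4, inferInstance, inferInstance, inferInstance, inferInstance,
      G, base.map e, ?_, ?_, ?_⟩
    · intro v
      revert v
      decide
    · rw [Fintype.card_prod, Fintype.card_prod, Fintype.card_prod, ZMod.card, MP_65f012_coM.F4.card]
      norm_num
    · have hP : Fintype.card P = 8 := by
        rw [Fintype.card_prod, Fintype.card_prod, ZMod.card]
      rw [Fintype.card_sum, Fintype.card_sum, Fintype.card_fin, Fintype.card_empty, hP,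
        Fintype.card_prod, hP, MP_65f012_coM.F4.card]
  | succ d ih =>
    obtain ⟨F, L, V, i1, i2, i3, i4, G, S, h1, h2, h3⟩ := ih
    refine ⟨NF L V F R5 R10, L ⊕ V, V × F4, inferInstance, inferInstance, inferInstance, inferInstance,
      G.next, Sys.next five hole G S hΘ, ?_, ?_, ?_⟩
    · rintro ⟨v, c⟩
      exact Prod.ext (h1 v) (MP_65f012_coM.F4.add_self c)
    · rw [Fintype.card_prod, MP_65f012_coM.F4.card, h2, mul_assoc, ← pow_succ]
    · rw [Fintype.card_sum, Fintype.card_sum, Fintype.card_prod, MP_65f012_coM.F4.card]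
      rw [Fintype.card_sum] at h3
      omega

theorem family {μ : ℕ} {R5 R10 F0 : Type} [Fintype R5] [Fintype R10] [Fintype F0]
    (nm : Fin 2 → F4 →+ P →+ P) (nm_inj : ∀ m β x, β ≠ 0 → nm m β x = 0 → x = 0)
    (five : LocL μ R5 F4 Unit) (hΘ : ∀ β c, five.Θ () β c = β * c)
    (hole : LocS μ R10 P (Fin 2)) (hh : hole.Θ = fun m β x => nm m β x)
    (base : Sys μ F0 (Fin 10) (P × F4)) (hμ : 2 < μ) (t v k l : ℕ) (ht : 2 ≤ t)
    (hv : 3 * v = 4 ^ (t + 1) * (4 ^ t - 1)) (hk : 6 * k = 4 ^ t * (2 * 4 ^ t + 1))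
    (hl : 12 * l = 4 ^ t * (4 ^ t + 2)) :
    ∃ L : MP_65f012_co.LinkedSystem μ v, ∀ i j, i ≠ j → L.k i j = k ∧ L.lam i j = l := by
  obtain ⟨d, rfl⟩ : ∃ d, t = d + 2 := ⟨t - 2, by omega⟩
  obtain ⟨F, L, V, i1, i2, i3, i4, G, S, h1, h2, h3⟩ :=
    tower nm nm_inj five hΘ hole hh base d
  obtain ⟨w, hw⟩ : ∃ w, Fintype.card (L ⊕ Fin 2) = w := ⟨_, rfl⟩
  obtain ⟨q, hq⟩ : ∃ q, q = 4 ^ d := ⟨_, rfl⟩
  have hq1 : 1 ≤ q := by
    rw [hq]
    exact Nat.one_le_pow _ _ (by norm_num)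
  have p2 : (4 : ℕ) ^ (d + 2) = 16 * q := by rw [hq]; ring
  have p3 : (4 : ℕ) ^ (d + 2 + 1) = 64 * q := by rw [hq]; ring
  rw [p2] at h2 hk hl hv
  rw [p3] at hv
  have h4 : Fintype.card V = 16 * (2 * q) := by omega
  have h5 : 3 * w + 2 = 32 * q := by omega
  have hw2 : 2 ≤ w := by omega
  have hv' : v = w * (16 * (2 * q)) := by
    have e1 : 16 * q - 1 = (16 * q - 1) := rfl
    have e2 : 2 * (16 * q - 1) = 3 * w := by omega
    have e3 : 3 * v = 3 * (w * (16 * (2 * q))) := by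
      rw [hv]
      have e4 : 64 * q * (16 * q - 1) = 32 * q * (2 * (16 * q - 1)) := by ring
      rw [e4, e2]
      ring
    omega
  obtain ⟨T, hT⟩ := Sys.linked S h1 hμ h3 (2 * q) w v h4 hw hw2 hv'
  refine ⟨T, fun i j hij => ?_⟩
  obtain ⟨a, b⟩ := hT i j hij
  constructor
  · rw [a]
    have e1 : 3 * (w + 1) = 32 * q + 1 := by omega
    have e2 : 6 * (4 * (2 * q) * (w + 1)) = 6 * k := by
      rw [hk]
      have e3 : 6 * (4 * (2 * q) * (w + 1)) = 16 * q * (3 * (w + 1)) := by ring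
      rw [e3, e1]
      ring
    omega
  · rw [b]
    have e1 : 3 * (w + 2) = 32 * q + 4 := by omega
    have e2 : 12 * (2 * q * (w + 2)) = 12 * l := by
      rw [hl]
      have e3 : 12 * (2 * q * (w + 2)) = 8 * q * (3 * (w + 2)) := by ring
      rw [e3, e1]
      ring
    omega

theorem not_pow (t v : ℕ) (ht : 2 ≤ t) (hv : 3 * v = 4 ^ (t + 1) * (4 ^ t - 1)) (e : ℕ) :
    v ≠ 2 ^ e := by
  rintro rfl
  have h0 : 1 ≤ (4 : ℕ) ^ t := Nat.one_le_pow _ _ (by norm_num)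
  have h2 : 4 ^ t - 1 ∣ 3 * 2 ^ e := ⟨4 ^ (t + 1), by rw [hv]; ring⟩
  have h3 : Nat.Coprime (4 ^ t - 1) (2 ^ e) := by
    refine Nat.Coprime.pow_right e ?_
    rw [Nat.coprime_two_right]
    have h5 : ¬ (4 ^ t - 1) % 2 = 0 := by
      obtain ⟨s, rfl⟩ : ∃ s, t = s + 1 := ⟨t - 1, by omega⟩
      have h6 : (4 : ℕ) ^ (s + 1) = 2 * (2 * 4 ^ s) := by ring
      omega
    exact Nat.odd_iff.2 (by omega)
  have h4 : 4 ^ t - 1 ∣ 3 := h3.dvd_of_dvd_mul_right h2
  have h5 : 4 ^ t - 1 ≤ 3 := Nat.le_of_dvd (by norm_num) h4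
  have h6 : 4 ^ 2 ≤ (4 : ℕ) ^ t := Nat.pow_le_pow_right (by norm_num) ht
  omega

/-- the parameters are not those of a Menon design -/
theorem not_menon (t v k l : ℕ) (ht : 2 ≤ t) (hv : 3 * v = 4 ^ (t + 1) * (4 ^ t - 1))
    (hk : 6 * k = 4 ^ t * (2 * 4 ^ t + 1)) (hl : 12 * l = 4 ^ t * (4 ^ t + 2)) :
    4 * (k - l) < v := by
  obtain ⟨d, rfl⟩ : ∃ d, t = d + 2 := ⟨t - 2, by omega⟩
  obtain ⟨q, hq⟩ : ∃ q, q = 4 ^ d := ⟨_, rfl⟩
  have hq1 : 1 ≤ q := by
    rw [hq]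
    exact Nat.one_le_pow _ _ (by norm_num)
  have p2 : (4 : ℕ) ^ (d + 2) = 16 * q := by rw [hq]; ring
  have p3 : (4 : ℕ) ^ (d + 2 + 1) = 64 * q := by rw [hq]; ring
  rw [p2] at hk hl hv
  rw [p3] at hv
  obtain ⟨x, rfl⟩ : ∃ x, q = x + 1 := ⟨q - 1, by omega⟩
  have e1 : 16 * (x + 1) - 1 = 16 * x + 15 := by omega
  rw [e1] at hv
  have e2 : 12 * (k - l) = 12 * (64 * (x + 1) * (x + 1)) := by
    have e3 : 12 * (k - l) = 2 * (6 * k) - 12 * l := by omega
    rw [e3, hk, hl]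
    have e4 : 2 * (16 * (x + 1) * (2 * (16 * (x + 1)) + 1)) =
      16 * (x + 1) * (16 * (x + 1) + 2) + 12 * (64 * (x + 1) * (x + 1)) := by ring
    omega
  have e5 : k - l = 64 * (x + 1) * (x + 1) := by omega
  rw [e5]
  nlinarith

theorem twisted {μ : ℕ} (v k l : ℕ) (L : MP_65f012_co.LinkedSystem μ v)
    (hL : ∀ i j, i ≠ j → L.k i j = k ∧ L.lam i j = l) (h1 : 2 * k < v + l)
    (c : Fin μ → Fin μ → Bool) (hc : ∀ i j, c i j = c j i) :
    ∃ L : MP_65f012_co.LinkedSystem μ v, ∀ i j, i ≠ j →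
      L.k i j = (if c i j = true then v - k else k) ∧
      L.lam i j = (if c i j = true then v + l - 2 * k else l) := by
  have h2 : ∀ i j, i ≠ j → 1 < L.k i j ∧ 2 * L.k i j < v + L.lam i j := by
    intro i j hij
    have h3 := L.nontrivial i j hij
    refine ⟨by omega, ?_⟩
    rw [(hL i j hij).1, (hL i j hij).2]
    exact h1
  refine ⟨MP_65f012_coM.twist L c hc h2, fun i j hij => ⟨?_, ?_⟩⟩
  · show (if c i j = true then v - L.k i j else L.k i j) = _
    rw [(hL i j hij).1]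
  · show (if c i j = true then v + L.lam i j - 2 * L.k i j else L.lam i j) = _
    rw [(hL i j hij).1, (hL i j hij).2]

end Pool.Agent.Lib.MP_65f012_coD
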